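import Pool.Agent.P.MP_f981b0_an.R1.Main

/-! The two consequences of the rank-one theorem that are used for reductive operators. -/

open scoped InnerProductSpace InnerProduct
open Metric Set Filter Topology
open Pool.Agent.P.MP_f981b0_an.R1

namespace Pool.Agent.P.MP_49c4d9_an.R1

section General

variable {X : Type*} [TopologicalSpace X] [CompactSpace X]
variable {E : Type*} [NormedAddCommGroup E] [NormedSpace ℂ E]
variable (Θ : C(X, ℂ) →ₐ[ℂ] (E →L[ℂ] E)) (a : C(X, ℂ)) {K : Set ℂ}
  (hs : ∀ (μ : ℂ) (g : C(ℂ, ℂ)), (∀ ζ ∈ K, ζ ≠ μ → g ζ = 0) → IsCompactOperator (Θ (g.comp a)))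

include hs

omit [CompactSpace X] in
theorem compact_finite (P : Finset ℂ) (hP : ∀ μ ∈ P, ¬ AccPt μ (𝓟 K)) :
    ∀ g : C(ℂ, ℂ), (∀ ζ ∈ K, ζ ∉ P → g ζ = 0) → IsCompactOperator (Θ (g.comp a)) := by
  classical
  induction P using Finset.induction_on with
  | empty =>
    intro g hg
    exact hs 0 g fun ζ hζ _ => hg ζ hζ (by simp)
  | insert μ P hμ ih =>
    intro g hg
    have h1 := hP μ (Finset.mem_insert_self _ _)
    rw [accPt_iff_nhds] at h1
    push Not at h1
    obtain ⟨U, hU, hU'⟩ := h1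
    obtain ⟨δ, hδ, hδU⟩ := Metric.mem_nhds_iff.1 hU
    have hb : ∀ ζ ∈ K, ζ ≠ μ → tent μ δ ζ = 0 := fun ζ hζ hne =>
      tent_zero fun h => hne (hU' ζ ⟨hδU h, hζ⟩)
    have hb0 := tent_self μ hδ
    have h2 := hs μ ((g μ / tent μ δ μ) • tent μ δ) fun ζ hζ hne => by simp [hb ζ hζ hne]
    have h3 := ih (fun ν hν => hP ν (Finset.mem_insert_of_mem hν))
      (g - (g μ / tent μ δ μ) • tent μ δ) fun ζ hζ hζP => by
        by_cases h : ζ = μ
        · subst h
          simp [hb0]
        · simp [hb ζ hζ h, hg ζ hζ (by simp [h, hζP])]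
    have h4 : Θ (g.comp a) = Θ ((g - (g μ / tent μ δ μ) • tent μ δ).comp a) +
        Θ (((g μ / tent μ δ μ) • tent μ δ).comp a) := by
      rw [← map_add, ← ContinuousMap.add_comp, sub_add_cancel]
    rw [h4]
    exact h3.add h2

theorem compact_vanish [CompleteSpace E] (hΘ : Continuous Θ) (hKc : IsCompact K) (f : C(ℂ, ℂ))
    (hf : ∀ t, AccPt t (𝓟 K) → f t = 0) : IsCompactOperator (Θ (f.comp a)) := by
  let tr : ℝ → ℂ → ℂ := fun δ z => ((δ / max ‖f z‖ δ : ℝ) : ℂ) * f z
  have htr : ∀ δ, 0 < δ → Continuous (tr δ) := fun δ hδ =>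
    (Complex.continuous_ofReal.comp (continuous_const.div (by fun_prop) fun z =>
      (lt_max_of_lt_right hδ).ne')).mul (by fun_prop)
  have htr1 : ∀ δ, 0 < δ → ∀ z, ‖tr δ z‖ ≤ δ := fun δ hδ z => by
    have hm : 0 < max ‖f z‖ δ := lt_max_of_lt_right hδ
    simp only [tr, norm_mul, Complex.norm_real, Real.norm_eq_abs]
    rw [abs_of_nonneg (by positivity), div_mul_eq_mul_div, div_le_iff₀ hm]
    exact mul_le_mul_of_nonneg_left (le_max_left _ _) hδ.le
  have htr2 : ∀ δ, 0 < δ → ∀ z, ‖f z‖ < δ → tr δ z = f z := fun δ hδ z hz => by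
    simp [tr, max_eq_right hz.le, hδ.ne']
  have hpos : ∀ k : ℕ, (0 : ℝ) < 1 / ((k : ℝ) + 1) := fun k => by positivity
  let g : ℕ → C(ℂ, ℂ) := fun k =>
    ⟨fun z => f z - tr (1 / ((k : ℝ) + 1)) z, f.continuous.sub (htr _ (hpos k))⟩
  have h1 : ∀ k, IsCompactOperator (Θ ((g k).comp a)) := by
    intro k
    have hfin : (K ∩ {z | 1 / ((k : ℝ) + 1) ≤ ‖f z‖}).Finite := by
      by_contra hinf
      obtain ⟨t, ht, hacc⟩ := Set.Infinite.exists_accPt_of_subset_isCompact hinf
        (hKc.inter_right (isClosed_le continuous_const f.continuous.norm)) subset_rfl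
      have h0 := hf t (hacc.mono (principal_mono.2 inter_subset_left))
      have h2 : 1 / ((k : ℝ) + 1) ≤ ‖f t‖ := ht.2
      rw [h0, norm_zero] at h2
      exact absurd (hpos k) (not_lt.mpr h2)
    refine compact_finite Θ a hs hfin.toFinset (fun μ hμ hacc => ?_) _ fun ζ hζ h => ?_
    · rw [Finite.mem_toFinset] at hμ
      have h2 : 1 / ((k : ℝ) + 1) ≤ ‖f μ‖ := hμ.2
      rw [hf μ hacc, norm_zero] at h2
      exact absurd (hpos k) (not_lt.mpr h2)
    · rw [Finite.mem_toFinset] at h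
      have : ‖f ζ‖ < 1 / ((k : ℝ) + 1) := by
        by_contra hcon
        exact h ⟨hζ, not_lt.mp hcon⟩
      simp only [g, ContinuousMap.coe_mk, htr2 _ (hpos k) ζ this, sub_self]
  have h2 : Tendsto (fun k => (g k).comp a) atTop (𝓝 (f.comp a)) := by
    rw [tendsto_iff_norm_sub_tendsto_zero]
    refine squeeze_zero (fun k => norm_nonneg _) (fun k => ?_)
      tendsto_one_div_add_atTop_nhds_zero_nat
    refine (ContinuousMap.norm_le _ (hpos k).le).2 fun x => ?_
    simpa [g] using htr1 _ (hpos k) (a x)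
  exact isCompactOperator_of_tendsto ((hΘ.tendsto _).comp h2) (Eventually.of_forall h1)

end General

variable {H : Type*} [NormedAddCommGroup H] [InnerProductSpace ℂ H] [CompleteSpace H]

theorem thmR {N T : H →L[ℂ] H} {u v : H} (hN : IsStarNormal N)
    (hT : ∀ x, T x = N x + ⟪v, x⟫_ℂ • u) (hs : ∀ c : ℂ, T ≠ c • 1) : Hyper T := by
  obtain rfl : T = N + (innerSL ℂ v).smulRight u := ContinuousLinearMap.ext hT
  exact normal_hyper N hN u _ hs

theorem loc_or_compact {N T : H →L[ℂ] H} {u v : H} (hN : IsStarNormal N)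
    (hT : ∀ x, T x = N x + ⟪v, x⟫_ℂ • u)
    (hu : ∀ L : Submodule ℂ H, IsClosed (L : Set H) → u ∈ L → (∀ x ∈ L, N x ∈ L) → L = ⊤)
    (hv : ∀ L : Submodule ℂ H, IsClosed (L : Set H) → v ∈ L → (∀ x ∈ L, (N†) x ∈ L) → L = ⊤)
    (τ : ℂ) (hinj : ∀ w, w ≠ τ → ∀ x, T x = w • x → x = 0)
    (hinj' : ∀ w, w ≠ τ → ∀ x, (T†) x = (starRingEnd ℂ) w • x → x = 0) :
    (∃ t : ℂ, IsCompactOperator ((N - τ • 1) * (N - t • 1) : H →L[ℂ] H)) ∨
      ∃ (A B : Set ℂ) (y : H) (e : StrongDual ℂ H), IsCompact A ∧ IsClosed B ∧ Disjoint A B ∧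
        τ ∉ A ∧ τ ∉ B ∧ y ≠ 0 ∧ e ≠ 0 ∧ Loc T A y ∧ Loc (dualOp T) B e := by
  set Θ : C(spectrum ℂ N, ℂ) →ₐ[ℂ] (H →L[ℂ] H) := (cfcHom (R := ℂ) hN).toAlgHom with hΘd
  set a : C(spectrum ℂ N, ℂ) := (ContinuousMap.id ℂ).restrict (spectrum ℂ N) with ha
  have hΘ : Continuous Θ := cfcHom_continuous hN
  have hΘa : Θ a = N := cfcHom_id hN
  have hstar : ∀ G, Θ (star G) = ((Θ G)†) := fun G => map_star (cfcHom (R := ℂ) hN) G
  have hinjΘ : Function.Injective Θ := cfcHom_injective hN
  have hcomm : ∀ G G' x, Θ G (Θ G' x) = Θ G' (Θ G x) := fun G G' x => by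
    have : Θ G * Θ G' = Θ G' * Θ G := by rw [← map_mul, ← map_mul, mul_comm]
    exact congrArg (fun A : H →L[ℂ] H => A x) this
  have hTe : T = Θ a + (innerSL ℂ v).smulRight u := by
    rw [hΘa]; exact ContinuousLinearMap.ext hT
  have hker : ∀ G, (Θ G).ker = ⊤ → G = 0 := fun G hG => hinjΘ (by
    rw [map_zero]
    ext x
    have : x ∈ (Θ G).ker := by rw [hG]; trivial
    exact this)
  by_cases hacc : ∃ s t, AccPt s (𝓟 (spectrum ℂ N)) ∧ AccPt t (𝓟 (spectrum ℂ N)) ∧
      s ≠ t ∧ s ≠ τ ∧ t ≠ τ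
  · right
    obtain ⟨s, t, hs, ht, hst, hsτ, htτ⟩ := hacc
    have d1 : 0 < dist s t := dist_pos.2 hst
    have d2 : 0 < dist τ s := dist_pos.2 hsτ.symm
    have d3 : 0 < dist τ t := dist_pos.2 htτ.symm
    set r : ℝ := min (dist s t) (min (dist τ s) (dist τ t)) / 3 with hr
    have hr0 : 0 < r := by positivity
    have r1 : 3 * r ≤ dist s t := by
      have := min_le_left (dist s t) (min (dist τ s) (dist τ t)); linarith
    have r2 : 3 * r ≤ dist τ s := by
      have := (min_le_right (dist s t) _).trans (min_le_left (dist τ s) (dist τ t)); linarith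
    have r3 : 3 * r ≤ dist τ t := by
      have := (min_le_right (dist s t) _).trans (min_le_right (dist τ s) (dist τ t)); linarith
    have hne : ∀ p : ℂ, 3 * r ≤ dist τ p → p + 2 * r ≠ τ := by
      intro p hp hpe
      rw [← hpe, dist_eq_norm, add_sub_cancel_left, norm_mul, Complex.norm_real,
        Real.norm_of_nonneg hr0.le, Complex.norm_ofNat] at hp
      linarith
    obtain ⟨y, hy0, hy⟩ := key refl_hilbert Θ hΘ a u (innerSL ℂ v) (Z := spectrum ℂ N) hr0
      (fun g hg ζ hζ => by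
        have := hker _ (hu _ (ContinuousLinearMap.isClosed_ker _) hg fun x hx => by
          have h1 : Θ (g.comp a) x = 0 := hx
          show Θ (g.comp a) (N x) = 0
          have h2 := hcomm (g.comp a) a x
          rwa [hΘa, h1, map_zero] at h2)
        exact congrArg (fun G : C(spectrum ℂ N, ℂ) => G ⟨ζ, hζ⟩) this) hs
      (by rw [← hTe]; exact hinj _ (hne s r2))
    obtain ⟨e, he0, he⟩ := key (refl_hilbert (H := H)).dual (dualCalc Θ) (continuous_dualCalc hΘ) a
      (innerSL ℂ v) (NormedSpace.inclusionInDoubleDual ℂ H u) (Z := spectrum ℂ N) hr0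
      (fun g hg ζ hζ => by
        have h0 : Θ (star (g.comp a)) v = 0 := by
          refine ext_inner_right ℂ fun x => ?_
          rw [hstar, ContinuousLinearMap.adjoint_inner_left, inner_zero_left]
          exact congrArg (fun e : StrongDual ℂ H => e x) hg
        have := hker _ (hv _ (ContinuousLinearMap.isClosed_ker _) h0 fun x hx => by
          have h1 : Θ (star (g.comp a)) x = 0 := hx
          show Θ (star (g.comp a)) ((N†) x) = 0
          have h2 := hcomm (star (g.comp a)) (star a) x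
          rwa [h1, map_zero, hstar a, hΘa] at h2)
        have h2 := congrArg (fun G : C(spectrum ℂ N, ℂ) => G ⟨ζ, hζ⟩) (star_eq_zero.mp this)
        exact h2) ht
      (by
        rw [← dualOp_eq, ← hTe]
        intro e he
        obtain ⟨x, rfl⟩ := (InnerProductSpace.toDual ℂ H).surjective e
        have : x = 0 := hinj' _ (hne t r3) x (ext_inner_right ℂ fun z => by
          rw [ContinuousLinearMap.adjoint_inner_left, inner_smul_left, Complex.conj_conj]
          exact congrArg (fun e : StrongDual ℂ H => e z) he)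
        simp [this])
    rw [← dualOp_eq, ← hTe] at he
    rw [← hTe] at hy
    exact ⟨_, _, y, e, isCompact_closedBall s r, isClosed_closedBall,
      closedBall_disjoint_closedBall (by linarith), by rw [mem_closedBall]; linarith,
      by rw [mem_closedBall]; linarith, hy0, he0, hy, he⟩
  · left
    obtain ⟨t, ht⟩ : ∃ t : ℂ, ∀ s, AccPt s (𝓟 (spectrum ℂ N)) → s = τ ∨ s = t := by
      by_cases h1 : ∃ t, AccPt t (𝓟 (spectrum ℂ N)) ∧ t ≠ τ
      · obtain ⟨t, ht, htτ⟩ := h1
        refine ⟨t, fun s hs => ?_⟩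
        by_contra hcon
        push Not at hcon
        exact hacc ⟨s, t, hs, ht, hcon.2, hcon.1, htτ⟩
      · push Not at h1
        exact ⟨τ, fun s hs => Or.inl (h1 s hs)⟩
    refine ⟨t, ?_⟩
    have hc := compact_vanish Θ a (K := spectrum ℂ N) (fun μ g hg => by
      have heig : ∀ x, Θ (g.comp a) (N x) = μ • Θ (g.comp a) x := by
        intro x
        have h1 : g.comp a * a = μ • g.comp a := by
          ext ζ
          by_cases h : (ζ : ℂ) = μ
          · simp [ha, h, mul_comm]
          · simp [ha, hg ζ ζ.2 h]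
        have h2 := congrArg Θ h1
        rw [map_mul, map_smul, hΘa] at h2
        exact congrArg (fun A : H →L[ℂ] H => A x) h2
      have hV : IsClosed ((Submodule.span ℂ {Θ (g.comp a) u} : Submodule ℂ H) : Set H) :=
        Submodule.closed_of_finiteDimensional _
      have htop := hu ((Submodule.span ℂ {Θ (g.comp a) u}).comap (Θ (g.comp a)).toLinearMap)
        (hV.preimage (Θ (g.comp a)).continuous) (Submodule.mem_span_singleton_self _)
        (fun x hx => by
          show Θ (g.comp a) (N x) ∈ Submodule.span ℂ {Θ (g.comp a) u}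
          rw [heig]
          exact Submodule.smul_mem _ _ hx)
      have hmem : ∀ x, Θ (g.comp a) x ∈ Submodule.span ℂ {Θ (g.comp a) u} := fun x => by
        have : x ∈ (Submodule.span ℂ {Θ (g.comp a) u}).comap (Θ (g.comp a)).toLinearMap := by
          rw [htop]; trivial
        exact this
      have := FiniteDimensional.proper_rclike ℂ (Submodule.span ℂ {Θ (g.comp a) u})
      exact (isCompactOperator_of_locallyCompactSpace_dom
        ((Θ (g.comp a)).codRestrict _ hmem)).clm_comp (Submodule.subtypeL _))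
      hΘ (spectrum.isCompact N) ⟨fun z => (z - τ) * (z - t), by fun_prop⟩
      (fun s hs => by rcases ht s hs with rfl | rfl <;> simp)
    have e : (⟨fun z => (z - τ) * (z - t), by fun_prop⟩ : C(ℂ, ℂ)).comp a =
        (a - τ • 1) * (a - t • 1) := by
      ext ζ
      simp
    rwa [e, map_mul, map_sub, map_sub, map_smul, map_smul, map_one, hΘa] at hc

end Pool.Agent.P.MP_49c4d9_an.R1
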