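import Pool.Agent.P.MP_49c4d9_an.R1.Trace
import Pool.Agent.P.MP_49c4d9_an.R1.Stub

/-! The case analysis. -/

open scoped InnerProductSpace InnerProduct
open ContinuousLinearMap (adjoint)
open MeasureTheory
open Pool.Agent.P.MP_f981b0_an.R1 Pool.Agent.P.MP_f981b0_an.Lom

namespace Pool.Agent.P.MP_49c4d9_an.R1

variable {H : Type*} [NormedAddCommGroup H] [InnerProductSpace ℂ H] [CompleteSpace H]

theorem adjoint_restrict {A : H →L[ℂ] H} {K : Submodule ℂ H} [CompleteSpace K]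
    (h : ∀ x ∈ K, A x ∈ K) (h' : ∀ x ∈ K, (A†) x ∈ K) :
    adjoint (A.restrict h) = (A†).restrict h' := by
  symm
  rw [ContinuousLinearMap.eq_adjoint_iff]
  intro x y
  exact ContinuousLinearMap.adjoint_inner_left A (y : H) (x : H)

omit [CompleteSpace H] in
theorem eq_of_inner {V : Submodule ℂ H} {z z' : H} (hz : z ∈ V) (hz' : z' ∈ V)
    (h : ∀ y ∈ V, ⟪z, y⟫_ℂ = ⟪z', y⟫_ℂ) : z = z' := by
  have := h (z - z') (V.sub_mem hz hz')
  rwa [← sub_eq_zero, ← inner_sub_left, inner_self_eq_zero, sub_eq_zero] at this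

omit [CompleteSpace H] in
theorem exists_smul_of_inner {V : Submodule ℂ H} {z p : H} (hz : z ∈ V) (hp : p ∈ V) (hp0 : p ≠ 0)
    (h : ∀ y ∈ V, ⟪p, y⟫_ℂ = 0 → ⟪z, y⟫_ℂ = 0) : ∃ τ : ℂ, z = τ • p := by
  have hn : ⟪p, p⟫_ℂ ≠ 0 := inner_self_ne_zero.mpr hp0
  refine ⟨⟪p, z⟫_ℂ / ⟪p, p⟫_ℂ, ?_⟩
  have h1 : ⟪p, z - (⟪p, z⟫_ℂ / ⟪p, p⟫_ℂ) • p⟫_ℂ = 0 := by
    rw [inner_sub_right, inner_smul_right, div_mul_cancel₀ _ hn, sub_self]
  have h2 := h _ (V.sub_mem hz (V.smul_mem _ hp)) h1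
  rw [← sub_eq_zero, ← inner_self_eq_zero (𝕜 := ℂ), inner_sub_left, h2, inner_smul_left, h1]
  simp

/-- Linear independence of two vectors. -/
def Ind (p q : H) : Prop := ∀ s t : ℂ, s • p + t • q = 0 → s = 0 ∧ t = 0

omit [CompleteSpace H] in
theorem Ind.symm {p q : H} (h : Ind p q) : Ind q p :=
  fun s t e => (h t s (by rwa [add_comm])).symm

omit [CompleteSpace H] in
theorem Ind.ne_zero {p q : H} (h : Ind p q) : p ≠ 0 := by
  rintro rfl
  exact one_ne_zero (h 1 0 (by simp)).1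

omit [CompleteSpace H] in
theorem ind_or {p : H} (hp : p ≠ 0) (q : H) : Ind p q ∨ ∃ t : ℂ, q = t • p := by
  by_cases h : Ind p q
  · exact Or.inl h
  · right
    simp only [Ind, not_forall] at h
    obtain ⟨s, t, e, hst⟩ := h
    have ht : t ≠ 0 := by
      rintro rfl
      exact hst ⟨by simpa [hp] using e, rfl⟩
    refine ⟨-s / t, ?_⟩
    have : q = t⁻¹ • (t • q) := by rw [smul_smul, inv_mul_cancel₀ ht, one_smul]
    rw [this, eq_neg_of_add_eq_zero_right e, smul_neg, smul_smul, ← neg_smul]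
    congr 1
    field_simp

omit [CompleteSpace H] in
theorem Ind.exists_dual {V : Submodule ℂ H} {p q : H} (h : Ind p q) (hp : p ∈ V) (hq : q ∈ V) :
    ∃ y ∈ V, ⟪p, y⟫_ℂ = 0 ∧ ⟪q, y⟫_ℂ = 1 := by
  by_contra hno
  obtain ⟨τ, hτ⟩ := exists_smul_of_inner hq hp h.ne_zero (by
    intro y hy h0
    by_contra h1
    exact hno ⟨(⟪q, y⟫_ℂ)⁻¹ • y, V.smul_mem _ hy, by rw [inner_smul_right, h0, mul_zero],
      by rw [inner_smul_right, inv_mul_cancel₀ h1]⟩)
  exact one_ne_zero (h (-τ) 1 (by rw [hτ]; simp)).2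

namespace Setup

variable {N T : H →L[ℂ] H} {a a' b b' : H} {M : Submodule ℂ H}

theorem ne_bot (h : Setup N T a a' b b' M) : M ≠ ⊥ := by
  rintro rfl
  have := h.rank
  simp at this

theorem of_restrict (h : Setup N T a a' b b' M) (L : Submodule ℂ M) (h1 : IsClosed (L : Set M))
    (h2 : L ≠ ⊥) (h3 : L ≠ ⊤) (h4 : ∀ x ∈ L, T.restrict h.inv x ∈ L) : False := by
  rcases h.trans (L.map M.subtype) ((M.isClosedEmbedding_subtype h.closed).isClosedMap _ h1)
    (M.map_subtype_le L) (by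
      rintro _ ⟨x, hx, rfl⟩
      exact ⟨_, h4 x hx, rfl⟩) with e | e
  · exact h2 (Submodule.map_injective_of_injective M.injective_subtype (by simpa using e))
  · exact h3 (Submodule.map_injective_of_injective M.injective_subtype (by simpa using e))

theorem useR (h : Setup N T a a' b b' M) {c d : H} (hc : c ∈ M) (hd : d ∈ M)
    (e : ∀ x ∈ M, (T†) (T x) - T ((T†) x) = ⟪d, x⟫_ℂ • (T†) c + ⟪c, T x⟫_ℂ • d
      - (⟪d, x⟫_ℂ * ⟪c, c⟫_ℂ) • d - ⟪c, x⟫_ℂ • T d - ⟪d, (T†) x⟫_ℂ • c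
      + (⟪c, x⟫_ℂ * ⟪d, d⟫_ℂ) • c) : False := by
  have := h.closed.completeSpace_coe
  let W : M →L[ℂ] M := T.restrict h.inv - InnerProductSpace.rankOne ℂ (⟨c, hc⟩ : M) (⟨d, hd⟩ : M)
  have hW : IsStarNormal W := by
    constructor
    rw [ContinuousLinearMap.star_eq_adjoint, map_sub, adjoint_restrict h.inv h.inv',
      InnerProductSpace.adjoint_rankOne]
    ext x
    have := e x x.2
    simp only [W, ContinuousLinearMap.mul_def, ContinuousLinearMap.comp_apply, sub_apply,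
      InnerProductSpace.rankOne_apply, Submodule.coe_sub, Submodule.coe_smul,
      ContinuousLinearMap.coe_restrict_apply, Submodule.coe_inner, map_sub, map_smul,
      inner_sub_right, inner_smul_right]
    linear_combination (norm := module) this
  obtain ⟨L, h1, h2, h3, h4⟩ := thmR (T := T.restrict h.inv) (u := (⟨c, hc⟩ : M))
    (v := (⟨d, hd⟩ : M)) hW (fun x => by simp [W]) (by
      intro μ hμ
      obtain ⟨x, hx, hx0⟩ := (Submodule.ne_bot_iff M).mp h.ne_bot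
      refine hx0 (h.no_eig hx (μ := μ) ?_)
      exact congrArg (fun A : M →L[ℂ] M => (A ⟨x, hx⟩ : H)) hμ)
  exact h.of_restrict L h1 h2 h3 (h4 _ rfl)

theorem case_a0 (h : Setup N T a a' b b' M) (ha : a = 0) : False := by
  subst ha
  have hb : a' = 0 ∨ b = 0 := by
    by_cases ha' : a' = 0
    · exact Or.inl ha'
    · right
      have hn : ⟪a', a'⟫_ℂ ≠ 0 := inner_self_ne_zero.mpr ha'
      have e := h.offdiag h.ha'
      refine h.no_eig h.hb
        (μ := (⟪a', a'⟫_ℂ)⁻¹ * (⟪a', T a'⟫_ℂ - ⟪b', a'⟫_ℂ * ⟪a', a'⟫_ℂ)) ?_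
      apply smul_right_injective H hn
      simp only [smul_smul, mul_inv_cancel_left₀ hn]
      simp only [zero_add, map_zero, smul_zero] at e
      linear_combination (norm := module) -e
  refine h.useR M.zero_mem M.zero_mem fun x hx => ?_
  rw [h.diag hx]
  rcases hb with rfl | rfl <;> simp

theorem case_both0 (h : Setup N T a a' b b' M) (ha : a' = 0) (hb : b' = 0) : False := by
  subst ha hb
  refine h.useR h.ha h.hb fun x hx => ?_
  rw [h.diag hx]
  simp

theorem case_circle (h : Setup N T a a' b b' M) (hg : Gen N M) (ha : a ≠ 0) (ha' : a' = 0)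
    (hb' : b' ≠ 0) : False := by
  subst ha'
  have hn : ⟪b', b'⟫_ℂ ≠ 0 := inner_self_ne_zero.mpr hb'
  have od : ∀ y ∈ Mᗮ, ⟪b', y⟫_ℂ • ((T†) a - ⟪a, a⟫_ℂ • b) = ⟪b', (T†) y⟫_ℂ • a := by
    intro y hy
    simpa using h.offdiag hy
  obtain ⟨k, hk⟩ : ∃ k : ℂ, (T†) a - ⟪a, a⟫_ℂ • b = k • a := by
    refine ⟨(⟪b', b'⟫_ℂ)⁻¹ * ⟪b', (T†) b'⟫_ℂ, smul_right_injective H hn ?_⟩
    simp only [smul_smul, mul_inv_cancel_left₀ hn]
    exact od b' h.hb'
  have hTb : T b' = (starRingEnd ℂ) k • b' := by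
    refine eq_of_inner (orth_inv h.inv' _ h.hb') (Mᗮ.smul_mem _ h.hb') fun y hy => ?_
    have := od y hy
    rw [hk, smul_smul, ContinuousLinearMap.adjoint_inner_right] at this
    rw [← smul_left_injective ℂ ha this, inner_smul_left, Complex.conj_conj, mul_comm]
  have h0 := h.null_two hg ha (q := b') (Or.inr rfl) (x₁ := 0) (y₁ := 1) (x₂ := 1) (y₂ := 0)
    (k₁ := k) (k₂ := (starRingEnd ℂ) k) (d₁ := -⟪a, a⟫_ℂ) (d₂ := -⟪b', b'⟫_ℂ) (by simp) (by simp)
    (by
      rw [h.hN', add_zero]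
      linear_combination (norm := module) hk)
    (by
      rw [h.hN, hTb, inner_add_left, h.hb' b h.hb]
      module)
  have := h.trace_one h0
  simp [ha, hb'] at this

theorem case_ellipse (h : Setup N T a a' b b' M) (hg : Gen N M) (ha : a ≠ 0) (ha' : a' ≠ 0)
    {c t : ℂ} (hb : b = c • a) (hb' : b' = t • a') : False := by
  subst hb hb'
  have o : ∀ {y z : H}, y ∈ Mᗮ → z ∈ M → ⟪y, z⟫_ℂ = 0 := fun hy hz =>
    Submodule.inner_left_of_mem_orthogonal hz hy
  have hn : ⟪a, a⟫_ℂ ≠ 0 := inner_self_ne_zero.mpr ha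
  have hn' : ⟪a', a'⟫_ℂ ≠ 0 := inner_self_ne_zero.mpr ha'
  have hU : ⟪a + a', a + a'⟫_ℂ = ⟪a, a⟫_ℂ + ⟪a', a'⟫_ℂ := by
    simp only [inner_add_left, inner_add_right, o h.ha' h.ha, h.ha' a h.ha, add_zero, zero_add]
  have hV : ⟪c • a + t • a', c • a + t • a'⟫_ℂ =
      c * (starRingEnd ℂ) c * ⟪a, a⟫_ℂ + t * (starRingEnd ℂ) t * ⟪a', a'⟫_ℂ := by
    simp only [inner_add_left, inner_add_right, inner_smul_left, inner_smul_right, o h.ha' h.ha,
      h.ha' a h.ha]
    ring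
  have hct : t * (starRingEnd ℂ) t = c * (starRingEnd ℂ) c := by
    by_contra hne
    have od : ∀ y ∈ Mᗮ, ⟪a', y⟫_ℂ • ((starRingEnd ℂ) t • (T†) a - c • T a) =
        ((starRingEnd ℂ) t * ⟪T a', y⟫_ℂ - c * ⟪(T†) a', y⟫_ℂ + ⟪a', y⟫_ℂ *
          ((starRingEnd ℂ) t * c * ⟪a + a', a + a'⟫_ℂ
            - ⟪c • a + t • a', c • a + t • a'⟫_ℂ)) • a := by
      intro y hy
      have := h.offdiag hy
      rw [inner_smul_left, inner_smul_left, ContinuousLinearMap.adjoint_inner_right,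
        ← ContinuousLinearMap.adjoint_inner_left T y a', map_smul] at this
      linear_combination (norm := module) this
    obtain ⟨k, hk⟩ : ∃ k : ℂ, (starRingEnd ℂ) t • (T†) a - c • T a = k • a :=
      ⟨(⟪a', a'⟫_ℂ)⁻¹ * _, smul_right_injective H hn' (by
        simp only [smul_smul, mul_inv_cancel_left₀ hn']
        exact od a' h.ha')⟩
    obtain ⟨k', hk'⟩ : ∃ k' : ℂ, t • T a' - (starRingEnd ℂ) c • (T†) a' = k' • a' := by
      refine exists_smul_of_inner (V := Mᗮ) (Mᗮ.sub_mem (Mᗮ.smul_mem _ (orth_inv h.inv' _ h.ha'))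
        (Mᗮ.smul_mem _ (orth_inv' h.inv _ h.ha'))) h.ha' ha' fun y hy h0 => ?_
      have := od y hy
      rw [h0, zero_smul, zero_mul, add_zero, eq_comm, smul_eq_zero] at this
      rw [inner_sub_left, inner_smul_left, inner_smul_left, Complex.conj_conj]
      exact this.resolve_right ha
    have hne' : (starRingEnd ℂ) t ≠ c := by
      rintro rfl
      exact hne (by rw [Complex.conj_conj, mul_comm])
    have h0 := h.null_two hg ha (q := a') (Or.inl rfl) (x₁ := -c) (y₁ := (starRingEnd ℂ) t)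
      (x₂ := t) (y₂ := -(starRingEnd ℂ) c)
      (k₁ := k + (c * (starRingEnd ℂ) c - (starRingEnd ℂ) t * c) * ⟪a, a⟫_ℂ)
      (k₂ := k' + ((starRingEnd ℂ) c * t - t * (starRingEnd ℂ) t) * ⟪a', a'⟫_ℂ)
      (d₁ := (c * (starRingEnd ℂ) c - t * (starRingEnd ℂ) t) * ⟪a, a⟫_ℂ)
      (d₂ := (c * (starRingEnd ℂ) c - t * (starRingEnd ℂ) t) * ⟪a', a'⟫_ℂ)
      (fun e => hne' (by linear_combination e))
      (fun e => hne' (by
        have : t = (starRingEnd ℂ) c := by linear_combination e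
        rw [this, Complex.conj_conj]))
      (by
        rw [h.hN', h.hN]
        simp only [inner_add_left, inner_smul_left, o h.ha' h.ha]
        linear_combination (norm := module) hk)
      (by
        rw [h.hN', h.hN]
        simp only [inner_add_left, inner_smul_left, h.ha' a h.ha]
        linear_combination (norm := module) hk')
    have := h.trace_one h0
    simp only [inner_smul_left, inner_smul_right] at this
    apply hne
    apply mul_left_cancel₀ (mul_ne_zero hn hn')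
    linear_combination this
  refine h.useR h.ha h.hb fun x hx => ?_
  rw [h.diag hx, hU, hV, hct]
  simp only [inner_smul_left, inner_smul_right]
  module

end Setup

end Pool.Agent.P.MP_49c4d9_an.R1
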