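import Pool.Agent.P.MP_49c4d9_an.R1.Cases

/-! The quartic case and the case of a scalar summand. -/

open scoped InnerProductSpace InnerProduct
open ContinuousLinearMap (adjoint)
open MeasureTheory
open Pool.Agent.P.MP_f981b0_an.R1 Pool.Agent.P.MP_f981b0_an.Lom

namespace Pool.Agent.P.MP_49c4d9_an.R1

variable {H : Type*} [NormedAddCommGroup H] [InnerProductSpace ℂ H] [CompleteSpace H]

omit [CompleteSpace H] in
theorem kappa_zero {a b a' b' : H} (h : Ind a b) (h' : Ind a' b') {k : ℂ}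
    (e : k * (⟪a, a⟫_ℂ * ⟪b', b'⟫_ℂ + ⟪a', a'⟫_ℂ * ⟪b, b⟫_ℂ) =
      2 * (starRingEnd ℂ) k * ⟪a, b⟫_ℂ * ⟪a', b'⟫_ℂ) : k = 0 := by
  by_contra hk
  have hk' : 0 < ‖k‖ := norm_pos_iff.mpr hk
  have e1 := congrArg norm e
  simp only [inner_self_eq_norm_sq_to_K, norm_mul, Complex.norm_conj] at e1
  have e2 : ‖((‖a‖ : ℂ) ^ 2 * (‖b'‖ : ℂ) ^ 2 + (‖a'‖ : ℂ) ^ 2 * (‖b‖ : ℂ) ^ 2)‖ =
      ‖a‖ ^ 2 * ‖b'‖ ^ 2 + ‖a'‖ ^ 2 * ‖b‖ ^ 2 := by
    rw [← Real.norm_of_nonneg (r := ‖a‖ ^ 2 * ‖b'‖ ^ 2 + ‖a'‖ ^ 2 * ‖b‖ ^ 2) (by positivity),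
      ← Complex.norm_real]
    push_cast
    rfl
  have e3 : ‖k‖ * (‖a‖ ^ 2 * ‖b'‖ ^ 2 + ‖a'‖ ^ 2 * ‖b‖ ^ 2) =
      ‖k‖ * (2 * ‖⟪a, b⟫_ℂ‖ * ‖⟪a', b'⟫_ℂ‖) := by
    rw [← e2]
    simp only [Complex.coe_algebraMap, Complex.norm_ofNat] at e1
    linear_combination e1
  have e4 := mul_left_cancel₀ hk'.ne' e3
  have l1 : ‖⟪a, b⟫_ℂ‖ < ‖a‖ * ‖b‖ := by
    refine lt_of_le_of_ne (norm_inner_le_norm a b) fun heq => ?_
    obtain ⟨r, -, hr⟩ := (norm_inner_eq_norm_iff h.ne_zero h.symm.ne_zero).mp heq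
    exact one_ne_zero (h (-r) 1 (by rw [hr]; simp)).2
  have l2 : ‖⟪a', b'⟫_ℂ‖ ≤ ‖a'‖ * ‖b'‖ := norm_inner_le_norm a' b'
  have p1 : 0 < ‖a'‖ * ‖b'‖ :=
    mul_pos (norm_pos_iff.mpr h'.ne_zero) (norm_pos_iff.mpr h'.symm.ne_zero)
  have l3 : ‖⟪a, b⟫_ℂ‖ * ‖⟪a', b'⟫_ℂ‖ < ‖a‖ * ‖b‖ * (‖a'‖ * ‖b'‖) :=
    lt_of_le_of_lt (mul_le_mul_of_nonneg_left l2 (norm_nonneg _)) (mul_lt_mul_of_pos_right l1 p1)
  nlinarith [sq_nonneg (‖a‖ * ‖b'‖ - ‖a'‖ * ‖b‖)]

theorem exists_rho {n n' r : ℝ} (hn : 0 < n) (hn' : 0 ≤ n') :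
    ∃ ρ : ℝ, (1 - ρ) * r - (n + n') + ρ ^ 2 * n = 0 := by
  have hd : 0 ≤ (r - 2 * n) ^ 2 + 4 * n * n' := by positivity
  refine ⟨(r + √((r - 2 * n) ^ 2 + 4 * n * n')) / (2 * n), ?_⟩
  have := Real.sq_sqrt hd
  generalize √((r - 2 * n) ^ 2 + 4 * n * n') = q at this
  field_simp
  linear_combination this

namespace Setup

variable {N T : H →L[ℂ] H} {a a' b b' : H} {M : Submodule ℂ H}

theorem span_of_ind (h : Setup N T a a' b b' M) (hi : Ind a' b') :
    ∃ δ γ : ℂ, T b = δ • b + γ • a := by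
  obtain ⟨y, hy, h0, h1⟩ := hi.symm.exists_dual h.hb' h.ha'
  have e := h.offdiag hy
  rw [h0, h1] at e
  exact ⟨⟪a', T y⟫_ℂ, ⟪b + b', b + b'⟫_ℂ - ⟪b', (T†) y⟫_ℂ, by
    linear_combination (norm := module) -e⟩

theorem case_quartic (h : Setup N T a a' b b' M) (hg : Gen N M) (hi : Ind a b) (hi' : Ind a' b') :
    False := by
  have o : ∀ {y z : H}, y ∈ Mᗮ → z ∈ M → ⟪y, z⟫_ℂ = 0 := fun hy hz =>
    Submodule.inner_left_of_mem_orthogonal hz hy
  obtain ⟨δ, γ, hTb⟩ := h.span_of_ind hi'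
  obtain ⟨α, β, hSa⟩ := h.symm.span_of_ind hi'.symm
  have hU : ⟪a + a', a + a'⟫_ℂ = ⟪a, a⟫_ℂ + ⟪a', a'⟫_ℂ := by
    simp only [inner_add_left, inner_add_right, o h.ha' h.ha, h.ha' a h.ha, add_zero, zero_add]
  have hV : ⟪b + b', b + b'⟫_ℂ = ⟪b, b⟫_ℂ + ⟪b', b'⟫_ℂ := by
    simp only [inner_add_left, inner_add_right, o h.hb' h.hb, h.hb' b h.hb, add_zero, zero_add]
  have od : ∀ y ∈ Mᗮ,
      ⟪b', y⟫_ℂ * α - ⟪a', y⟫_ℂ * (γ - (⟪b, b⟫_ℂ + ⟪b', b'⟫_ℂ)) - ⟪T b', y⟫_ℂ = 0 ∧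
      ⟪b', y⟫_ℂ * (β - (⟪a, a⟫_ℂ + ⟪a', a'⟫_ℂ)) + ⟪(T†) a', y⟫_ℂ - ⟪a', y⟫_ℂ * δ = 0 := by
    intro y hy
    have e := h.offdiag hy
    rw [hTb, hSa, hU, hV, ContinuousLinearMap.adjoint_inner_right,
      ← ContinuousLinearMap.adjoint_inner_left T y a'] at e
    exact hi _ _ (by linear_combination (norm := module) e)
  have hTb' : T b' = (starRingEnd ℂ) α • b' +
      (⟪b, b⟫_ℂ + ⟪b', b'⟫_ℂ - (starRingEnd ℂ) γ) • a' := by
    refine eq_of_inner (orth_inv h.inv' _ h.hb')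
      (Mᗮ.add_mem (Mᗮ.smul_mem _ h.hb') (Mᗮ.smul_mem _ h.ha')) fun y hy => ?_
    simp only [inner_add_left, inner_smul_left, map_sub, map_add, Complex.conj_conj,
      inner_conj_symm]
    linear_combination -(od y hy).1
  have hSa' : (T†) a' = (starRingEnd ℂ) δ • a' +
      (⟪a, a⟫_ℂ + ⟪a', a'⟫_ℂ - (starRingEnd ℂ) β) • b' := by
    refine eq_of_inner (orth_inv' h.inv _ h.ha')
      (Mᗮ.add_mem (Mᗮ.smul_mem _ h.ha') (Mᗮ.smul_mem _ h.hb')) fun y hy => ?_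
    simp only [inner_add_left, inner_smul_left, map_sub, map_add, Complex.conj_conj,
      inner_conj_symm]
    linear_combination (od y hy).2
  have n1 : N b = δ • b + (γ - ⟪b, b⟫_ℂ) • a - ⟪b, b⟫_ℂ • a' := by
    rw [h.hN, hTb, inner_add_left, o h.hb' h.hb]; module
  have n2 : N b' = (starRingEnd ℂ) α • b' - ⟪b', b'⟫_ℂ • a +
      (⟪b, b⟫_ℂ - (starRingEnd ℂ) γ) • a' := by
    rw [h.hN, hTb', inner_add_left, h.hb' b h.hb]; module
  have n3 : (N†) a = α • a + (β - ⟪a, a⟫_ℂ) • b - ⟪a, a⟫_ℂ • b' := by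
    rw [h.hN', hSa, inner_add_left, o h.ha' h.ha]; module
  have n4 : (N†) a' = (starRingEnd ℂ) δ • a' - ⟪a', a'⟫_ℂ • b +
      (⟪a, a⟫_ℂ - (starRingEnd ℂ) β) • b' := by
    rw [h.hN', hSa', inner_add_left, h.ha' a h.ha]; module
  have h0 := h.null_four hg hi.ne_zero (k₁ := δ) (k₂ := (starRingEnd ℂ) α)
    (k₃ := (starRingEnd ℂ) δ) (k₄ := α) (g₁ := γ - ⟪b, b⟫_ℂ) (g₂ := -⟪b, b⟫_ℂ)
    (g₃ := -⟪b', b'⟫_ℂ) (g₄ := ⟪b, b⟫_ℂ - (starRingEnd ℂ) γ) (e₁ := β - ⟪a, a⟫_ℂ)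
    (e₂ := -⟪a, a⟫_ℂ) (e₃ := -⟪a', a'⟫_ℂ) (e₄ := ⟪a, a⟫_ℂ - (starRingEnd ℂ) β)
    (by rw [n1]; module) (by rw [n2]; module) (by rw [n3]; module) (by rw [n4]; module)
  have t1 := h.trace_one h0
  have t2 := h.trace h0 2
  have r1 : ⟪a, T b⟫_ℂ = ⟪(T†) a, b⟫_ℂ := (ContinuousLinearMap.adjoint_inner_left T b a).symm
  have r2 : ⟪a', T b'⟫_ℂ = ⟪(T†) a', b'⟫_ℂ := (ContinuousLinearMap.adjoint_inner_left T b' a').symm
  rw [hTb, hSa] at r1
  rw [hTb', hSa'] at r2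
  rw [pow_two, mul_apply_eq_comp, mul_apply_eq_comp,
    ContinuousLinearMap.adjoint_inner_right N (b + b'), ContinuousLinearMap.adjoint_inner_right N b,
    map_add, map_add, n1, n2, n3, n4] at t2
  simp only [inner_add_left, inner_add_right, inner_sub_left, inner_sub_right, inner_smul_left,
    inner_smul_right, map_sub, map_add, Complex.conj_conj, inner_conj_symm,
    o h.ha' h.ha, h.ha' a h.ha, o h.hb' h.hb, h.hb' b h.hb, o h.ha' h.hb, h.ha' b h.hb,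
    o h.hb' h.ha, h.hb' a h.ha] at r1 r2 t2
  have hk : α - (starRingEnd ℂ) δ = 0 := by
    apply kappa_zero hi hi'
    rw [map_sub, Complex.conj_conj]
    linear_combination -t2 - (α + (starRingEnd ℂ) δ) * t1 + ⟪a', b'⟫_ℂ * r1 - ⟪a, b⟫_ℂ * r2
  obtain rfl : α = (starRingEnd ℂ) δ := sub_eq_zero.mp hk
  have hn : 0 < ‖a‖ ^ 2 := by have := norm_pos_iff.mpr hi.ne_zero; positivity
  obtain ⟨ρ, hρ⟩ := exists_rho (r := 2 * β.re) hn (sq_nonneg ‖a'‖)
  have q1 : (1 - (ρ : ℂ)) * (β + (starRingEnd ℂ) β) - (⟪a, a⟫_ℂ + ⟪a', a'⟫_ℂ)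
      + (ρ : ℂ) ^ 2 * ⟪a, a⟫_ℂ = 0 := by
    rw [Complex.add_conj, inner_self_eq_norm_sq_to_K, inner_self_eq_norm_sq_to_K]
    simp only [Complex.coe_algebraMap]
    exact_mod_cast hρ
  have r1' := congrArg (starRingEnd ℂ) r1
  simp only [map_add, map_mul, Complex.conj_conj, inner_conj_symm] at r1 r1'
  have q2 : (1 - (ρ : ℂ)) * (γ + (starRingEnd ℂ) γ) - (⟪b, b⟫_ℂ + ⟪b', b'⟫_ℂ)
      + (ρ : ℂ) ^ 2 * ⟪b, b⟫_ℂ = 0 := by
    apply mul_left_cancel₀ (inner_self_ne_zero (𝕜 := ℂ).mpr hi.ne_zero)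
    linear_combination ⟪b, b⟫_ℂ * q1 + (1 - (ρ : ℂ)) * (r1 + r1') - t1
  refine h.useR (c := (ρ : ℂ) • a) (M.smul_mem _ h.ha) h.hb fun x hx => ?_
  rw [h.diag hx, hU, hV]
  simp only [inner_smul_left, inner_smul_right, map_smul, Complex.conj_ofReal,
    ← ContinuousLinearMap.adjoint_inner_left T x a, ContinuousLinearMap.adjoint_inner_right,
    hTb, hSa, inner_add_left, Complex.conj_conj]
  linear_combination (norm := module) (⟪b, x⟫_ℂ * q1) • b - (⟪a, x⟫_ℂ * q2) • a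

theorem case_scalar (h : Setup N T a a' b b' M) (hg : Gen N M) (hi : Ind a b) (ha' : a' ≠ 0)
    {t : ℂ} (ht : t ≠ 0) (hb' : b' = t • a') : False := by
  subst hb'
  have o : ∀ {y z : H}, y ∈ Mᗮ → z ∈ M → ⟪y, z⟫_ℂ = 0 := fun hy hz =>
    Submodule.inner_left_of_mem_orthogonal hz hy
  have hn' : ⟪a', a'⟫_ℂ ≠ 0 := inner_self_ne_zero.mpr ha'
  have od : ∀ y ∈ Mᗮ, ⟪a', y⟫_ℂ = 0 → ⟪T a', y⟫_ℂ = 0 ∧ ⟪(T†) a', y⟫_ℂ = 0 := by
    intro y hy h0
    have e := h.offdiag hy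
    rw [inner_smul_left, inner_smul_left, h0, ContinuousLinearMap.adjoint_inner_right,
      ← ContinuousLinearMap.adjoint_inner_left T y a'] at e
    have := hi (-((starRingEnd ℂ) t * ⟪T a', y⟫_ℂ)) ⟪(T†) a', y⟫_ℂ
      (by linear_combination (norm := module) e)
    exact ⟨by simpa [ht] using this.1, this.2⟩
  obtain ⟨τ, hτ⟩ := exists_smul_of_inner (orth_inv h.inv' _ h.ha') h.ha' ha'
    fun y hy h0 => (od y hy h0).1
  obtain ⟨τ', hτ'⟩ := exists_smul_of_inner (orth_inv' h.inv _ h.ha') h.ha' ha'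
    fun y hy h0 => (od y hy h0).2
  obtain rfl : τ' = (starRingEnd ℂ) τ := by
    have := ContinuousLinearMap.adjoint_inner_right T a' a'
    rw [hτ, hτ', inner_smul_left, inner_smul_right] at this
    exact mul_right_cancel₀ hn' this
  -- the space is `M ⊕ ℂ a'`
  have hdec : ∀ x : H, ∃ m ∈ M, ∃ c : ℂ, x = m + c • a' := by
    have ha1 : a' ∈ M ⊔ Submodule.span ℂ {a'} :=
      Submodule.mem_sup_right (Submodule.mem_span_singleton_self a')
    have hinv : ∀ (A : H →L[ℂ] H) (μ : ℂ), (∀ x ∈ M, A x ∈ M) → A a' = μ • a' →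
        ∀ x ∈ M ⊔ Submodule.span ℂ {a'}, A x ∈ M ⊔ Submodule.span ℂ {a'} := by
      intro A μ h1 h2 x hx
      obtain ⟨m, hm, z, hz, rfl⟩ := Submodule.mem_sup.mp hx
      obtain ⟨c, rfl⟩ := Submodule.mem_span_singleton.mp hz
      rw [map_add, map_smul, h2]
      exact Submodule.add_mem _ (Submodule.mem_sup_left (h1 m hm))
        (Submodule.smul_mem _ _ (Submodule.smul_mem _ _ ha1))
    have htop := hg (M ⊔ Submodule.span ℂ {a'})
      (Submodule.isClosed_sup_finiteDimensional _ _ h.closed)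
      (fun x hx => by
        rw [h.hN]
        exact Submodule.sub_mem _ (hinv T τ h.inv hτ x hx) (Submodule.smul_mem _ _
          (Submodule.add_mem _ (Submodule.mem_sup_left h.ha) ha1)))
      (fun x hx => by
        rw [h.hN']
        exact Submodule.sub_mem _ (hinv _ _ h.inv' hτ' x hx) (Submodule.smul_mem _ _
          (Submodule.add_mem _ (Submodule.mem_sup_left h.hb) (Submodule.smul_mem _ _ ha1))))
      le_sup_left
    intro x
    obtain ⟨m, hm, z, hz, rfl⟩ := Submodule.mem_sup.mp (htop ▸ Submodule.mem_top (x := x))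
    obtain ⟨c, rfl⟩ := Submodule.mem_span_singleton.mp hz
    exact ⟨m, hm, c, rfl⟩
  -- cyclic vectors and injectivity, for both the operator and its adjoint
  have hcyc : ∀ {N T : H →L[ℂ] H} {a b b' : H} {s μ : ℂ}, Setup N T a (s • a') b b' M → s ≠ 0 →
      a ≠ 0 → T a' = μ • a' → ∀ L : Submodule ℂ H, IsClosed (L : Set H) → a + s • a' ∈ L →
      (∀ x ∈ L, N x ∈ L) → L = ⊤ := by
    intro N T a b b' s μ h hs ha hτ L hL hu hinv
    have hT : ∀ x ∈ L, T x ∈ L := fun x hx => by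
      rw [h.hT]; exact L.add_mem (hinv x hx) (L.smul_mem _ hu)
    have h1 : T a - μ • a ∈ L := by
      have := L.sub_mem (hT _ hu) (L.smul_mem μ hu)
      rw [map_add, map_smul, hτ] at this
      convert this using 1
      module
    have h2 : M ≤ L := h.le_of_mem hL hT (M.sub_mem (h.inv _ h.ha) (M.smul_mem _ h.ha)) h1
      fun e => ha (h.no_eig h.ha (sub_eq_zero.mp e))
    have h3 : a' ∈ L := by
      have := L.smul_mem s⁻¹ ((L.add_mem_iff_right (h2 h.ha)).mp hu)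
      rwa [smul_smul, inv_mul_cancel₀ hs, one_smul] at this
    rw [eq_top_iff]
    intro x _
    obtain ⟨m, hm, c, rfl⟩ := hdec x
    exact L.add_mem (h2 hm) (L.smul_mem _ h3)
  have hinj : ∀ {N T : H →L[ℂ] H} {a a'' b b' : H} {μ : ℂ}, Setup N T a a'' b b' M →
      T a' = μ • a' → ∀ w, w ≠ μ → ∀ x, T x = w • x → x = 0 := by
    intro N T a a'' b b' μ h' hτ w hw x hx
    obtain ⟨m, hm, c, rfl⟩ := hdec x
    rw [map_add, map_smul, hτ, smul_add] at hx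
    have h1 := comp_eq (h'.inv m hm) (M.smul_mem w hm) (Mᗮ.smul_mem _ (Mᗮ.smul_mem _ h.ha'))
      (Mᗮ.smul_mem _ (Mᗮ.smul_mem _ h.ha')) hx
    have h2 := h'.no_eig hm h1
    rw [h1, add_right_inj, smul_smul, smul_smul] at hx
    have h3 := smul_left_injective ℂ ha' hx
    have h4 : c = 0 := by
      by_contra hc
      exact hw (mul_left_cancel₀ hc (by rw [h3, mul_comm]))
    simp [h2, h4]
  have h1 : Setup N T a ((1 : ℂ) • a') b (t • a') M := by rwa [one_smul]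
  rcases loc_or_compact h.normal h.hT
    (by simpa using hcyc h1 one_ne_zero hi.ne_zero hτ)
    (hcyc h.symm ht hi.symm.ne_zero hτ') τ (hinj h hτ)
    (fun w hw => hinj h.symm hτ' _ fun e => hw (by simpa using congrArg (starRingEnd ℂ) e)) with
    ⟨s, hs⟩ | ⟨A, B, y, e, hA, hB, hAB, hτA, hτB, hy0, he0, hy, he⟩
  · -- polynomially compact case
    have := h.closed.completeSpace_coe
    have hK : IsCompactOperator ((T - τ • 1) * (T - s • 1) : H →L[ℂ] H) := by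
      let F : H →L[ℂ] H := InnerProductSpace.rankOne ℂ (a + a') (b + t • a')
      have hF : IsCompactOperator F := by
        rw [show F = _ from InnerProductSpace.rankOne_def' _ _]
        exact (isCompactOperator_of_locallyCompactSpace_dom (innerSL ℂ (b + t • a'))).clm_comp
          (ContinuousLinearMap.toSpanSingleton ℂ (a + a'))
      have hTF : T = N + F := by
        ext x; rw [h.hT]; rfl
      have e : (T - τ • 1) * (T - s • 1) =
          (N - τ • 1) * (N - s • 1) + ((N - τ • 1) * F + F * (T - s • 1)) := by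
        have e1 : T - τ • 1 = (N - τ • 1) + F := by rw [hTF]; abel
        have e2 : T - s • 1 = (N - s • 1) + F := by rw [hTF]; abel
        rw [e1, add_mul, ← add_assoc, ← mul_add, ← e2]
      rw [e]
      have c1 : IsCompactOperator ((N - τ • 1) * F : H →L[ℂ] H) :=
        hF.clm_comp (N - τ • 1 : H →L[ℂ] H)
      have c2 : IsCompactOperator (F * (T - s • 1) : H →L[ℂ] H) :=
        hF.comp_clm (T - s • 1 : H →L[ℂ] H)
      exact hs.add (c1.add c2)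
    have hKM : ∀ x ∈ M, ((T - τ • 1) * (T - s • 1) : H →L[ℂ] H) x ∈ M := by
      intro x hx
      have h2 : T x - s • x ∈ M := M.sub_mem (h.inv x hx) (M.smul_mem _ hx)
      exact M.sub_mem (h.inv _ h2) (M.smul_mem _ h2)
    obtain ⟨L, l1, l2, l3, l4⟩ := exists_invariant_of_commute_compact (T.restrict h.inv)
      (((T - τ • 1) * (T - s • 1) : H →L[ℂ] H).restrict hKM) h.rank
      (IsCompactOperator.restrict (f := ((T - τ • 1) * (T - s • 1) : H →L[ℂ] H).toLinearMap)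
        hK hKM h.closed)
      (by
        intro h0
        have h2 : T (T a - s • a) - τ • (T a - s • a) = 0 :=
          congrArg (fun A : M →L[ℂ] M => (A ⟨a, h.ha⟩ : H)) h0
        have h3 := h.no_eig (M.sub_mem (h.inv _ h.ha) (M.smul_mem _ h.ha)) (sub_eq_zero.mp h2)
        exact hi.ne_zero (h.no_eig h.ha (sub_eq_zero.mp h3)))
      (by
        ext x
        show T (T (T x - s • x) - τ • (T x - s • x)) = T (T (T x) - s • T x) - τ • (T (T x) - s • T x)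
        simp only [map_sub, map_smul])
    exact h.of_restrict L l1 l2 l3 l4
  · have hsub : locSub T A ≤ M := by
      rintro z ⟨g, -, -, h3⟩
      obtain ⟨m, hm, c, hc⟩ := hdec (g τ)
      have : z = T m - τ • m := by
        rw [← h3 τ hτA, hc, map_add, map_smul, hτ]; module
      rw [this]
      exact M.sub_mem (h.inv m hm) (M.smul_mem _ hm)
    have hM := h.le_of_mem (locSub T A).isClosed_topologicalClosure
      (fun x hx => map_mem_closure (s := (locSub T A : Set H)) (t := (locSub T A : Set H))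
        T.continuous hx fun z hz => Loc.comm hz rfl)
      (hsub hy) ((locSub T A).le_topologicalClosure hy) hy0
    have hker : (locSub T A).topologicalClosure ≤ e.ker :=
      Submodule.topologicalClosure_minimal _ (fun z hz => Loc.pair hA hB hAB hz he)
        (ContinuousLinearMap.isClosed_ker e)
    have hea : e a' = 0 := by
      obtain ⟨k, -, -, h3⟩ := he
      rw [← h3 τ hτB]
      simp [hτ]
    apply he0
    ext x
    obtain ⟨m, hm, c, rfl⟩ := hdec x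
    have : e m = 0 := hker (hM hm)
    simp [this, hea]

theorem core (h : Setup N T a a' b b' M) (hg : Gen N M) : False := by
  by_cases ha : a = 0
  · exact h.case_a0 ha
  by_cases hb : b = 0
  · exact h.symm.case_a0 hb
  by_cases ha' : a' = 0
  · by_cases hb' : b' = 0
    · exact h.case_both0 ha' hb'
    · exact h.case_circle hg ha ha' hb'
  by_cases hb' : b' = 0
  · exact h.symm.case_circle hg.symm hb hb' ha'
  rcases ind_or ha' b' with hi' | ⟨t, ht⟩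
  · rcases ind_or hb a with hi | ⟨c, hc⟩
    · exact h.case_quartic hg hi.symm hi'
    · obtain ⟨δ, γ, e⟩ := h.span_of_ind hi'
      refine hb (h.no_eig h.hb (μ := δ + γ * c) ?_)
      rw [e, hc]; module
  · rcases ind_or ha b with hi | ⟨c, hc⟩
    · exact h.case_scalar hg hi ha' (by rintro rfl; exact hb' (by simpa using ht)) ht
    · exact h.case_ellipse hg ha ha' hc ht

end Setup

end Pool.Agent.P.MP_49c4d9_an.R1
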