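import Pool.Agent.P.MP_f981b0_an.R1.Pompeiu

/-! A Hartogs-Rosenthal lemma: on a compact set of area zero, a functional which kills the
functions `1/(l - z)` kills the conjugate powers of `z`. -/

open MeasureTheory Metric Set Real Complex Filter Topology
open Pool.Agent.P.MP_f981b0_an.R1

namespace Pool.Agent.P.MP_49c4d9_an.R1

theorem null_of_poly (K : Set ℂ) (hK : MeasurableSet K)
    (h : ∀ y : ℝ, ∃ p : Polynomial ℂ, p ≠ 0 ∧ ∀ x : ℝ, (x + y * I) ∈ K → p.eval (x : ℂ) = 0) :
    volume K = 0 := by
  have hmp : MeasurePreserving (fun q : ℝ × ℝ => Complex.measurableEquivRealProd.symm q.swap)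
      (volume.prod volume) volume :=
    (Complex.volume_preserving_equiv_real_prod.symm _).comp
      (Measure.measurePreserving_swap (μ := (volume : Measure ℝ)) (ν := (volume : Measure ℝ)))
  rw [← hmp.measure_preimage hK.nullMeasurableSet]
  refine Measure.measure_prod_null_of_ae_null (hmp.measurable hK) (Eventually.of_forall fun y => ?_)
  obtain ⟨p, hp, hx⟩ := h y
  have hfin : {x : ℝ | p.eval (x : ℂ) = 0}.Finite := by
    have h1 := (p.roots.toFinset.finite_toSet).preimage (Complex.ofReal_injective.injOn)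
    refine h1.subset fun x hx => ?_
    simpa [hp] using hx
  refine measure_mono_null (fun x hx' => ?_) (hfin.measure_zero volume)
  apply hx x
  have e : (x : ℂ) + y * I = Complex.measurableEquivRealProd.symm (x, y) := by
    apply Complex.ext <;> simp
  rw [e]
  exact hx'

theorem dbar_continuous {g : ℂ → ℂ} (hg : ContDiff ℝ 1 g) : Continuous (dbar g) := by
  have hc : Continuous (fderiv ℝ g) := hg.continuous_fderiv one_ne_zero
  unfold dbar
  exact continuous_const.mul ((hc.clm_apply continuous_const).add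
    (continuous_const.mul (hc.clm_apply continuous_const)))

theorem dbar_eq_zero {g : ℂ → ℂ} {R : ℝ} (h : ∀ z, R ≤ ‖z‖ → g z = 0) (z : ℂ)
    (hz : R + 1 ≤ ‖z‖) : dbar g z = 0 := by
  have : g =ᶠ[𝓝 z] fun _ => 0 := by
    have ho : IsOpen {w : ℂ | R < ‖w‖} := isOpen_lt continuous_const continuous_norm
    filter_upwards [ho.mem_nhds (show R < ‖z‖ by linarith)] with w hw
    exact h w hw.le
  simp [dbar, this.fderiv_eq]

theorem hartogs_rosenthal (K : Set ℂ) [CompactSpace K] (h0 : volume K = 0)
    (L : C(K, ℂ) →L[ℂ] ℂ)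
    (hL : ∀ l : ℂ, l ∉ K → ∀ f : C(K, ℂ), (∀ z : K, f z * (l - z) = 1) → L f = 0)
    {g : ℂ → ℂ} (hg : ContDiff ℝ 1 g) {R : ℝ} (hR : ∀ z, R ≤ ‖z‖ → g z = 0)
    (f : C(K, ℂ)) (hf : ∀ z : K, f z = g z) : L f = 0 := by
  have hK : IsCompact K := isCompact_iff_compactSpace.mpr inferInstance
  set φ := dbar g with hφ
  have cφ : Continuous φ := dbar_continuous hg
  have zφ : ∀ z, R + 1 ≤ ‖z‖ → φ z = 0 := dbar_eq_zero hR
  have sφ : HasCompactSupport φ := by
    refine HasCompactSupport.intro (isCompact_closedBall (0 : ℂ) (R + 1)) fun z hz => zφ z ?_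
    simpa using (not_le.mp (by simpa using hz)).le
  obtain ⟨B, hB⟩ := cφ.bounded_above_of_compact_support sφ
  have hB0 : 0 ≤ B := (norm_nonneg _).trans (hB 0)
  have hpom : ∀ w, cauchy φ w = -(π * g w) := pompeiu (R₀ := R + 1) (C := 0) hg zφ
    (fun z hz => by simp [hR z (by linarith)])
  -- the approximation
  have key : ∀ δ : ℝ, 0 < δ → ∀ η : ℝ, 0 < η →
      ‖L f‖ * π ≤ ‖L‖ * (B * (2 * π * η + η⁻¹ * volume.real (thickening δ K))) := by
    intro δ hδ η hη
    set U := thickening δ K with hU
    have hUo : IsOpen U := isOpen_thickening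
    have hUf : volume U ≠ ⊤ := (hK.isBounded.thickening.measure_lt_top).ne
    let k₀ : C(ℂ × K, ℂ) :=
      ⟨fun q => (starRingEnd ℂ) (q.1 - q.2) / ((max (‖q.1 - q.2‖ ^ 2) (δ ^ 2) : ℝ) : ℂ), by
        refine Continuous.div (by fun_prop) (by fun_prop) fun q => ?_
        have : 0 < max (‖q.1 - q.2‖ ^ 2) (δ ^ 2) := lt_max_of_lt_right (by positivity)
        exact_mod_cast this.ne'⟩
    have hk₀ : ∀ l, l ∉ U → ∀ z : K, k₀.curry l z * (l - z) = 1 := by
      intro l hl z
      have h1 : δ ≤ ‖l - z‖ := by
        by_contra hlt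
        exact hl (mem_thickening_iff.mpr ⟨z, z.2, by rw [dist_eq_norm]; exact not_le.mp hlt⟩)
      have h2 : max (‖l - z‖ ^ 2) (δ ^ 2) = ‖l - z‖ ^ 2 :=
        max_eq_left (pow_le_pow_left₀ hδ.le h1 2)
      have h3 : (‖l - z‖ : ℂ) ≠ 0 := by
        have : 0 < ‖l - z‖ := lt_of_lt_of_le hδ h1
        exact_mod_cast this.ne'
      simp only [ContinuousMap.curry_apply, k₀, ContinuousMap.coe_mk, h2]
      rw [div_mul_eq_mul_div, Complex.conj_mul']
      push_cast
      field_simp
    let k : ℂ → C(K, ℂ) := fun l => φ l • k₀.curry l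
    have ck : Continuous k := cφ.smul k₀.curry.continuous
    have sk : HasCompactSupport k := sφ.smul_right
    have ik : Integrable k := ck.integrable_of_hasCompactSupport sk
    set J : C(K, ℂ) := ∫ l in Uᶜ, k l with hJ
    have hLJ : L J = 0 := by
      rw [hJ, ← L.integral_comp_comm ik.integrableOn]
      refine setIntegral_eq_zero_of_forall_eq_zero fun l hl => ?_
      have hlK : l ∉ K := fun h => hl (self_subset_thickening hδ K h)
      simp [k, hL l hlK _ (hk₀ l hl)]
    have hJz : ∀ z : K, J z = ∫ l in Uᶜ, φ l / (l - z) := by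
      intro z
      have := (ContinuousMap.evalCLM ℂ z).integral_comp_comm (ik.integrableOn (s := Uᶜ))
      refine this.symm.trans (setIntegral_congr_fun hUo.measurableSet.compl fun l hl => ?_)
      have h1 := hk₀ l hl z
      have h2 : l - z ≠ 0 := right_ne_zero_of_mul_eq_one h1
      show φ l * k₀.curry l z = _
      rw [eq_div_iff h2, mul_assoc, h1, mul_one]
    have hdiff : ∀ z : K, ‖(J + (π : ℂ) • f) z‖ ≤ B * (2 * π * η + η⁻¹ * volume.real U) := by
      intro z
      have hm : AEStronglyMeasurable (fun l : ℂ => φ l / (l - z)) volume :=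
        (cφ.measurable.div (by fun_prop)).aestronglyMeasurable
      have hint : Integrable fun l : ℂ => φ l / (l - z) := by
        refine (((dom_ball 0 z (r := |R| + 2) (by positivity)).const_mul hB0).mono
          (fun l => ?_) le_rfl).integrable hm
        by_cases hl : l ∈ ball (0 : ℂ) (|R| + 2)
        · rw [indicator_of_mem hl, norm_div, div_eq_mul_inv]
          gcongr
          exact hB l
        · rw [indicator_of_notMem hl, zφ l]
          · simp
          · have : |R| + 2 ≤ ‖l‖ := by simpa using hl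
            linarith [le_abs_self R]
      have e1 : (J + (π : ℂ) • f) z = -∫ l in U, φ l / (l - z) := by
        have h1 := integral_add_compl hUo.measurableSet hint
        have h2 := hpom z
        unfold MP_f981b0_an.R1.cauchy at h2
        simp only [ContinuousMap.add_apply, ContinuousMap.smul_apply, smul_eq_mul, hJz, hf]
        linear_combination h1 + h2
      rw [e1, norm_neg, ← integral_indicator hUo.measurableSet]
      have hd : Dom (U.indicator fun _ => η⁻¹) (η⁻¹ * volume.real U) := by
        refine ⟨_, ?_, fun _ => le_rfl, ?_⟩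
        · exact (integrable_indicator_iff hUo.measurableSet).2 (integrableOn_const hUf)
        · rw [integral_indicator hUo.measurableSet, setIntegral_const, smul_eq_mul, mul_comm]
      refine ((((dom_self z hη.le).add hd).const_mul hB0).mono (fun l => ?_) le_rfl).norm_integral_le
      by_cases hl : l ∈ U
      · rw [indicator_of_mem hl, indicator_of_mem hl, norm_div, div_eq_mul_inv]
        refine mul_le_mul (hB l) ?_ (by positivity) hB0
        by_cases hz : l ∈ ball (z : ℂ) η
        · rw [indicator_of_mem hz]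
          have : 0 ≤ η⁻¹ := by positivity
          linarith
        · rw [indicator_of_notMem hz, zero_add]
          rw [mem_ball, dist_eq_norm, not_lt] at hz
          exact inv_anti₀ hη hz
      · rw [indicator_of_notMem hl, indicator_of_notMem hl, norm_zero, add_zero]
        exact mul_nonneg hB0 (indicator_nonneg (fun _ _ => by positivity) l)
    have hn : ‖J + (π : ℂ) • f‖ ≤ B * (2 * π * η + η⁻¹ * volume.real U) :=
      (ContinuousMap.norm_le _ (by positivity)).mpr hdiff
    have h1 := L.le_opNorm (J + (π : ℂ) • f)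
    rw [map_add, hLJ, zero_add, map_smul, norm_smul, Complex.norm_real,
      Real.norm_of_nonneg pi_pos.le, mul_comm] at h1
    exact h1.trans (by gcongr)
  have hvol : Tendsto (fun δ => volume.real (thickening δ K)) (𝓝[>] 0) (𝓝 0) := by
    have h1 := tendsto_measure_thickening_of_isClosed (μ := (volume : Measure ℂ)) (s := K)
      ⟨1, one_pos, (hK.isBounded.thickening.measure_lt_top).ne⟩ hK.isClosed
    rw [h0] at h1
    exact (ENNReal.tendsto_toReal ENNReal.zero_ne_top).comp h1
  have key2 : ∀ η : ℝ, 0 < η → ‖L f‖ * π ≤ ‖L‖ * (B * (2 * π * η)) := by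
    intro η hη
    have h1 := (((hvol.const_mul η⁻¹).const_add (2 * π * η)).const_mul B).const_mul ‖L‖
    simp only [mul_zero, add_zero] at h1
    refine ge_of_tendsto h1 ?_
    filter_upwards [self_mem_nhdsWithin] with δ hδ
    exact key δ hδ η hη
  have key3 : ‖L f‖ * π ≤ 0 := by
    have h1 : Tendsto (fun η : ℝ => ‖L‖ * (B * (2 * π * η))) (𝓝[>] 0) (𝓝 0) := by
      have : Continuous fun η : ℝ => ‖L‖ * (B * (2 * π * η)) := by fun_prop
      simpa using (this.tendsto 0).mono_left nhdsWithin_le_nhds
    refine ge_of_tendsto h1 ?_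
    filter_upwards [self_mem_nhdsWithin] with η hη
    exact key2 η hη
  have : ‖L f‖ ≤ 0 := by
    by_contra h
    have := mul_pos (not_le.mp h) pi_pos
    linarith
  exact norm_le_zero_iff.mp this

/-- The conjugate powers of the coordinate are killed. -/
theorem hr_conj_pow (K : Set ℂ) [CompactSpace K] (h0 : volume K = 0)
    (L : C(K, ℂ) →L[ℂ] ℂ)
    (hL : ∀ l : ℂ, l ∉ K → ∀ f : C(K, ℂ), (∀ z : K, f z * (l - z) = 1) → L f = 0)
    (n : ℕ) (f : C(K, ℂ)) (hf : ∀ z : K, f z = (starRingEnd ℂ) (z : ℂ) ^ n) : L f = 0 := by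
  have hK : IsCompact K := isCompact_iff_compactSpace.mpr inferInstance
  obtain ⟨R, hR0, hR⟩ := hK.isBounded.subset_closedBall_lt 0 (0 : ℂ)
  let χ : ContDiffBump (0 : ℂ) := ⟨R, R + 1, hR0, by linarith⟩
  refine hartogs_rosenthal K h0 L hL (g := fun z => (χ z : ℂ) * (starRingEnd ℂ) z ^ n) ?_
    (R := R + 1) ?_ f ?_
  · exact (Complex.ofRealCLM.contDiff.comp χ.contDiff).mul (Complex.conjCLE.contDiff.pow n)
  · intro z hz
    have : χ z = 0 := χ.zero_of_le_dist (by simpa using hz)
    simp [this]
  · intro z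
    have : χ z = 1 := χ.one_of_mem_closedBall (hR z.2)
    simp [this, hf]

end Pool.Agent.P.MP_49c4d9_an.R1
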