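import Pool.Agent.P.MP_49c4d9_an.R1.Cases2

/-! Reductive rank-one perturbations of normal operators are normal. -/

open scoped InnerProductSpace InnerProduct
open ContinuousLinearMap (adjoint)

namespace Pool.Agent.P.MP_49c4d9_an.R1

variable {H : Type*} [NormedAddCommGroup H] [InnerProductSpace ℂ H] [CompleteSpace H]

omit [CompleteSpace H] in
theorem isClosed_sInf {S : Set (Submodule ℂ H)} (h : ∀ L ∈ S, IsClosed (L : Set H)) :
    IsClosed ((sInf S : Submodule ℂ H) : Set H) := by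
  rw [Submodule.coe_sInf]
  exact isClosed_biInter h

theorem Setup.false {N T : H →L[ℂ] H} {a a' b b' : H} {M : Submodule ℂ H}
    (h : Setup N T a a' b b' M) : False := by
  by_cases ha : a = 0
  · exact h.case_a0 ha
  by_cases hb : b = 0
  · exact h.symm.case_a0 hb
  set S : Set (Submodule ℂ H) := {L | IsClosed (L : Set H) ∧ (∀ x ∈ L, N x ∈ L) ∧
    (∀ x ∈ L, (N†) x ∈ L) ∧ M ≤ L} with hS
  set K : Submodule ℂ H := sInf S with hK
  have hKc : IsClosed (K : Set H) := isClosed_sInf fun L hL => hL.1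
  have hN : ∀ x ∈ K, N x ∈ K := fun x hx =>
    Submodule.mem_sInf.mpr fun L hL => hL.2.1 x (Submodule.mem_sInf.mp hx L hL)
  have hN' : ∀ x ∈ K, (N†) x ∈ K := fun x hx =>
    Submodule.mem_sInf.mpr fun L hL => hL.2.2.1 x (Submodule.mem_sInf.mp hx L hL)
  have hMK : M ≤ K := le_sInf fun L hL => hL.2.2.2
  have hmem : ∀ {N T : H →L[ℂ] H} {a a' b b' : H}, Setup N T a a' b b' M → b ≠ 0 →
      (∀ x ∈ K, N x ∈ K) → a' ∈ K := by
    intro N T a a' b b' h hb hN
    have h1 : ⟪b + b', b⟫_ℂ • (a + a') ∈ K := by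
      have := K.sub_mem (hMK (h.inv b h.hb)) (hN b (hMK h.hb))
      rwa [h.hT, add_sub_cancel_left] at this
    rw [inner_add_left, Submodule.inner_left_of_mem_orthogonal h.hb h.hb', add_zero,
      K.smul_mem_iff (inner_self_ne_zero.mpr hb)] at h1
    exact (K.add_mem_iff_right (hMK h.ha)).mp h1
  have ha' : a' ∈ K := hmem h hb hN
  have hb' : b' ∈ K := hmem h.symm ha hN'
  have hT : ∀ x ∈ K, T x ∈ K := fun x hx => by
    rw [h.hT]; exact K.add_mem (hN x hx) (K.smul_mem _ (K.add_mem (hMK h.ha) ha'))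
  have hT' : ∀ x ∈ K, (T†) x ∈ K := fun x hx => by
    rw [h.hS]; exact K.add_mem (hN' x hx) (K.smul_mem _ (K.add_mem (hMK h.hb) hb'))
  have := hKc.completeSpace_coe
  have hemb := (K.isClosedEmbedding_subtype hKc).isClosedMap
  have h' : Setup (N.restrict hN) (T.restrict hT) (⟨a, hMK h.ha⟩ : K) ⟨a', ha'⟩ ⟨b, hMK h.hb⟩
      ⟨b', hb'⟩ (M.comap K.subtype) :=
    { normal := ⟨by
        rw [ContinuousLinearMap.star_eq_adjoint, adjoint_restrict hN hN']
        ext x
        exact normal_apply h.normal x⟩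
      hT := fun x => Subtype.ext (h.hT x)
      closed := h.closed.preimage continuous_subtype_val
      inv := fun x hx => h.inv x hx
      inv' := fun x hx => by
        rw [adjoint_restrict hT hT']
        exact h.inv' x hx
      rank := by
        rw [(Submodule.comapSubtypeEquivOfLe hMK).rank_eq]
        exact h.rank
      trans := fun L hL hLM hinv => by
        rcases h.trans (L.map K.subtype) (hemb _ hL) (Submodule.map_le_iff_le_comap.mpr hLM) (by
          rintro _ ⟨x, hx, rfl⟩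
          exact ⟨_, hinv x hx, rfl⟩) with e | e
        · exact Or.inl (Submodule.map_injective_of_injective K.injective_subtype (by simpa using e))
        · right
          rw [← e, Submodule.comap_map_eq_of_injective K.injective_subtype]
      ha := h.ha
      hb := h.hb
      ha' := fun x hx => h.ha' x hx
      hb' := fun x hx => h.hb' x hx }
  refine h'.core fun L hL h1 h2 h3 => ?_
  rw [adjoint_restrict hN hN'] at h2
  have hle : K ≤ L.map K.subtype := sInf_le ⟨hemb _ hL, by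
      rintro _ ⟨x, hx, rfl⟩
      exact ⟨_, h1 x hx, rfl⟩, by
      rintro _ ⟨x, hx, rfl⟩
      exact ⟨_, h2 x hx, rfl⟩, fun x hx => ⟨⟨x, hMK hx⟩, h3 hx, rfl⟩⟩
  rw [eq_top_iff]
  intro x _
  obtain ⟨y, hy, e⟩ := hle x.2
  rwa [← Subtype.ext e]

/-- Every reducing subspace of dimension at least two of a rank-one perturbation of a normal
operator contains a nontrivial closed invariant subspace. -/
theorem exists_invariant_le {N T : H →L[ℂ] H} {u v : H} (hN : IsStarNormal N)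
    (hT : ∀ x, T x = N x + ⟪v, x⟫_ℂ • u) {M : Submodule ℂ H} (hM : IsClosed (M : Set H))
    (h1 : ∀ x ∈ M, T x ∈ M) (h2 : ∀ x ∈ M, (T†) x ∈ M) (hr : 1 < Module.rank ℂ M) :
    ∃ L : Submodule ℂ H, IsClosed (L : Set H) ∧ L ≤ M ∧ (∀ x ∈ L, T x ∈ L) ∧ L ≠ ⊥ ∧ L ≠ M := by
  by_contra hno
  obtain ⟨a, ha, a', ha', rfl⟩ := exists_decomp hM u
  obtain ⟨b, hb, b', hb', rfl⟩ := exists_decomp hM v
  exact Setup.false ⟨hN, hT, hM, h1, h2, hr, fun L l1 l2 l3 => by
    by_contra hcon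
    push Not at hcon
    exact hno ⟨L, l1, l2, l3, hcon.1, hcon.2⟩, ha, hb, ha', hb'⟩

theorem normal_on_of_reductive {N T : H →L[ℂ] H} {u v : H} (hN : IsStarNormal N)
    (hT : ∀ x, T x = N x + ⟪v, x⟫_ℂ • u) {M₀ : Submodule ℂ H} (hM₀ : IsClosed (M₀ : Set H))
    (hM₀T : ∀ x ∈ M₀, T x ∈ M₀)
    (hred : ∀ K : Submodule ℂ H, IsClosed (K : Set H) → K ≤ M₀ → (∀ x ∈ K, T x ∈ K) →
      ∀ x ∈ K, (T†) x ∈ K) : ∀ x ∈ M₀, (T†) (T x) = T ((T†) x) := by
  classical
  by_contra hno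
  set C : H →ₗ[ℂ] H := ((T†) * T - T * (T†) : H →L[ℂ] H).toLinearMap with hC
  have hCx : ∀ x, C x = (T†) (T x) - T ((T†) x) := fun x => rfl
  have hS : ∀ x, (T†) x = (N†) x + ⟪u, x⟫_ℂ • v := fun x => by
    refine ext_inner_left ℂ fun y => ?_
    rw [ContinuousLinearMap.adjoint_inner_right, hT, inner_add_left, inner_add_right y ((N†) x),
      ContinuousLinearMap.adjoint_inner_right, inner_smul_left, inner_smul_right, inner_conj_symm,
      mul_comm]
  set F : Submodule ℂ H := Submodule.span ℂ ({u, v, (N†) u, N v} : Set H) with hF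
  have hFd : FiniteDimensional ℂ F := FiniteDimensional.span_of_finite ℂ (Set.toFinite _)
  have hCF : ∀ x, C x ∈ F := by
    intro x
    have e : C x = ⟪v, x⟫_ℂ • (N†) u + ⟪u, T x⟫_ℂ • v - ⟪u, x⟫_ℂ • N v - ⟪v, (T†) x⟫_ℂ • u := by
      have e1 : (N†) (T x) = (N†) (N x) + ⟪v, x⟫_ℂ • (N†) u := by rw [hT, map_add, map_smul]
      have e2 : N ((T†) x) = N ((N†) x) + ⟪u, x⟫_ℂ • N v := by rw [hS, map_add, map_smul]
      rw [hCx, hS (T x), hT ((T†) x), e1, e2, normal_apply hN]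
      abel
    rw [e]
    refine F.sub_mem (F.sub_mem (F.add_mem (F.smul_mem _ ?_) (F.smul_mem _ ?_)) (F.smul_mem _ ?_))
      (F.smul_mem _ ?_) <;> exact Submodule.subset_span (by simp)
  have hfin : ∀ M : Submodule ℂ H, FiniteDimensional ℂ (M.map C) := fun M =>
    Submodule.finiteDimensional_of_le (S₂ := F) (by
      rintro _ ⟨x, -, rfl⟩
      exact hCF x)
  have hCinv : ∀ L : Submodule ℂ H, (∀ x ∈ L, T x ∈ L) → (∀ x ∈ L, (T†) x ∈ L) →
      ∀ x ∈ L, C x ∈ L := fun L h1 h2 x hx => L.sub_mem (h2 _ (h1 x hx)) (h1 _ (h2 x hx))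
  have hCorth : ∀ L : Submodule ℂ H, IsClosed (L : Set H) → L ≤ M₀ → (∀ x ∈ L, T x ∈ L) →
      ∀ x ∈ Lᗮ, C x ∈ Lᗮ := fun L h1 h0 h2 => hCinv _ (orth_inv (hred L h1 h0 h2)) (orth_inv' h2)
  have hex : ∃ n, ∃ M : Submodule ℂ H, IsClosed (M : Set H) ∧ M ≤ M₀ ∧ (∀ x ∈ M, T x ∈ M) ∧
      M.map C ≠ ⊥ ∧ Module.finrank ℂ (M.map C) = n := by
    refine ⟨_, M₀, hM₀, le_rfl, hM₀T, fun h0 => hno fun x hx => ?_, rfl⟩
    have : C x ∈ M₀.map C := ⟨x, hx, rfl⟩
    rw [h0, Submodule.mem_bot, hCx, sub_eq_zero] at this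
    exact this
  obtain ⟨M, hMc, hMM, hMT, hM0, hMn⟩ := Nat.find_spec hex
  set S : Set (Submodule ℂ H) := {L | IsClosed (L : Set H) ∧ (∀ x ∈ L, T x ∈ L) ∧ M.map C ≤ L}
    with hSd
  set K : Submodule ℂ H := sInf S with hK
  have hKc : IsClosed (K : Set H) := isClosed_sInf fun L hL => hL.1
  have hKT : ∀ x ∈ K, T x ∈ K := fun x hx =>
    Submodule.mem_sInf.mpr fun L hL => hL.2.1 x (Submodule.mem_sInf.mp hx L hL)
  have hMK : M.map C ≤ K := le_sInf fun L hL => hL.2.2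
  have hKM : K ≤ M := sInf_le ⟨hMc, hMT, by
    rintro _ ⟨x, hx, rfl⟩
    exact hCinv M hMT (hred M hMc hMM hMT) x hx⟩
  have hmap : M.map C ≤ K.map C := by
    rintro _ ⟨x, hx, rfl⟩
    obtain ⟨y, hy, z, hz, rfl⟩ := exists_decomp hKc x
    have h1 : C z ∈ K ⊓ Kᗮ :=
      ⟨hMK ⟨z, (M.add_mem_iff_right (hKM hy)).mp hx, rfl⟩, hCorth K hKc (hKM.trans hMM) hKT z hz⟩
    rw [Submodule.inf_orthogonal_eq_bot, Submodule.mem_bot] at h1
    exact ⟨y, hy, by rw [map_add, h1, add_zero]⟩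
  have hr : 1 < Module.rank ℂ K := by
    by_contra hle
    obtain ⟨x, hx, hxK⟩ := (rank_submodule_le_one_iff K).mp (not_lt.mp hle)
    obtain ⟨μ, hμ⟩ := Submodule.mem_span_singleton.mp (hxK (hKT x hx))
    obtain ⟨ν, hν⟩ := Submodule.mem_span_singleton.mp (hxK (hred K hKc (hKM.trans hMM) hKT x hx))
    apply hM0
    rw [eq_bot_iff]
    refine hmap.trans ?_
    rintro _ ⟨y, hy, rfl⟩
    obtain ⟨c, rfl⟩ := Submodule.mem_span_singleton.mp (hxK hy)
    rw [map_smul, hCx, ← hμ, ← hν, map_smul, map_smul, ← hμ, ← hν, smul_comm μ ν, sub_self,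
      smul_zero]
    trivial
  obtain ⟨L, l1, l2, l3, l4, l5⟩ := exists_invariant_le hN hT hKc hKT (hred K hKc (hKM.trans hMM) hKT) hr
  have l0 : L ≤ M₀ := l2.trans (hKM.trans hMM)
  by_cases h0 : L.map C = ⊥
  · have h1 : K ≤ Lᗮ := sInf_le ⟨L.isClosed_orthogonal, orth_inv (hred L l1 l0 l3), hmap.trans (by
      rintro _ ⟨x, -, rfl⟩
      obtain ⟨y, hy, z, hz, rfl⟩ := exists_decomp l1 x
      have : C y ∈ L.map C := ⟨y, hy, rfl⟩
      rw [h0, Submodule.mem_bot] at this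
      rw [map_add, this, zero_add]
      exact hCorth L l1 l0 l3 z hz)⟩
    apply l4
    rw [eq_bot_iff, ← L.inf_orthogonal_eq_bot]
    exact le_inf le_rfl (l2.trans h1)
  · have h1 : Module.finrank ℂ (M.map C) ≤ Module.finrank ℂ (L.map C) := by
      rw [hMn]
      exact Nat.find_min' hex ⟨L, l1, l0, l3, h0, rfl⟩
    have := hfin M
    have h2 : L.map C = M.map C :=
      Submodule.eq_of_le_of_finrank_le (Submodule.map_mono (l2.trans hKM)) h1
    refine l5 (le_antisymm l2 (sInf_le ⟨l1, l3, h2 ▸ ?_⟩))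
    rintro _ ⟨x, hx, rfl⟩
    exact hCinv L l3 (hred L l1 l0 l3) x hx

/-- A reductive orthogonal summand of a rank-one perturbation of a normal operator is normal. -/
theorem normal_of_reductive_summand {K : Type*} [NormedAddCommGroup K] [InnerProductSpace ℂ K]
    [CompleteSpace K] {T : H →L[ℂ] H} (V : H →ₗᵢ[ℂ] K) {N S : K →L[ℂ] K} {u v : K}
    (hN : IsStarNormal N) (hS : ∀ x, S x = N x + ⟪v, x⟫_ℂ • u) (h1 : ∀ x, S (V x) = V (T x))
    (h2 : ∀ x, (S†) (V x) = V ((T†) x))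
    (hred : ∀ L : Submodule ℂ H, IsClosed (L : Set H) → (∀ x ∈ L, T x ∈ L) →
      ∀ x ∈ L, (T†) x ∈ L) : IsStarNormal T := by
  have key := normal_on_of_reductive hN hS (M₀ := V.toLinearMap.range)
    V.isometry.isClosedEmbedding.isClosed_range
    (by
      rintro _ ⟨x, rfl⟩
      exact ⟨T x, (h1 x).symm⟩)
    (by
      intro L hL hLV hinv y hy
      obtain ⟨x, rfl⟩ := hLV hy
      have := hred (L.comap V.toLinearMap) (hL.preimage V.continuous)
        (fun z hz => by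
          show V (T z) ∈ L
          rw [← h1]
          exact hinv _ hz) x hy
      show (S†) (V x) ∈ L
      rw [h2]
      exact this)
  constructor
  rw [ContinuousLinearMap.star_eq_adjoint]
  ext x
  apply V.injective
  have := key (V x) ⟨x, rfl⟩
  rwa [h1, h2, h2, h1] at this

end Pool.Agent.P.MP_49c4d9_an.R1
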