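import Mathlib

/-! A minimal reducing subspace of a rank-one perturbation of a normal operator: basic algebra. -/

open scoped InnerProductSpace InnerProduct
open ContinuousLinearMap (adjoint)

namespace Pool.Agent.P.MP_49c4d9_an.R1

variable {H : Type*} [NormedAddCommGroup H] [InnerProductSpace ℂ H] [CompleteSpace H]

/-- `T = N + (a + a') ⊗ (b + b')`, and `M` is a reducing subspace of `T` of dimension at least two
without nontrivial closed invariant subspaces. -/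
structure Setup (N T : H →L[ℂ] H) (a a' b b' : H) (M : Submodule ℂ H) : Prop where
  normal : IsStarNormal N
  hT : ∀ x, T x = N x + ⟪b + b', x⟫_ℂ • (a + a')
  closed : IsClosed (M : Set H)
  inv : ∀ x ∈ M, T x ∈ M
  inv' : ∀ x ∈ M, (T†) x ∈ M
  rank : 1 < Module.rank ℂ M
  trans : ∀ L : Submodule ℂ H, IsClosed (L : Set H) → L ≤ M → (∀ x ∈ L, T x ∈ L) → L = ⊥ ∨ L = M
  ha : a ∈ M
  hb : b ∈ M
  ha' : a' ∈ Mᗮ
  hb' : b' ∈ Mᗮ

theorem orth_inv {A : H →L[ℂ] H} {M : Submodule ℂ H} (h : ∀ x ∈ M, (A†) x ∈ M) :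
    ∀ y ∈ Mᗮ, A y ∈ Mᗮ := by
  intro y hy x hx
  rw [← ContinuousLinearMap.adjoint_inner_left]
  exact hy _ (h x hx)

theorem orth_inv' {A : H →L[ℂ] H} {M : Submodule ℂ H} (h : ∀ x ∈ M, A x ∈ M) :
    ∀ y ∈ Mᗮ, (A†) y ∈ Mᗮ := by
  intro y hy x hx
  rw [ContinuousLinearMap.adjoint_inner_right]
  exact hy _ (h x hx)

omit [CompleteSpace H] in
theorem comp_eq {M : Submodule ℂ H} {x y x' y' : H} (hx : x ∈ M) (hy : y ∈ M) (hx' : x' ∈ Mᗮ)
    (hy' : y' ∈ Mᗮ) (h : x + x' = y + y') : x = y := by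
  have h1 : x - y = y' - x' := by linear_combination (norm := module) h
  have h2 : x - y ∈ M ⊓ Mᗮ := ⟨M.sub_mem hx hy, h1 ▸ Mᗮ.sub_mem hy' hx'⟩
  rw [Submodule.inf_orthogonal_eq_bot, Submodule.mem_bot, sub_eq_zero] at h2
  exact h2

theorem exists_decomp {M : Submodule ℂ H} (hM : IsClosed (M : Set H)) (x : H) :
    ∃ y ∈ M, ∃ z ∈ Mᗮ, x = y + z := by
  have := hM.completeSpace_coe
  exact M.exists_add_mem_mem_orthogonal x

theorem normal_apply {N : H →L[ℂ] H} (hN : IsStarNormal N) (x : H) : (N†) (N x) = N ((N†) x) :=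
  congrArg (fun A : H →L[ℂ] H => A x) hN.star_comm_self.eq

namespace Setup

variable {N T : H →L[ℂ] H} {a a' b b' : H} {M : Submodule ℂ H}

theorem hS (h : Setup N T a a' b b' M) (x : H) :
    (T†) x = (N†) x + ⟪a + a', x⟫_ℂ • (b + b') := by
  refine ext_inner_left ℂ fun y => ?_
  rw [ContinuousLinearMap.adjoint_inner_right, h.hT, inner_add_left, inner_add_right y ((N†) x),
    ContinuousLinearMap.adjoint_inner_right, inner_smul_left, inner_smul_right, inner_conj_symm,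
    mul_comm]

theorem hN (h : Setup N T a a' b b' M) (x : H) : N x = T x - ⟪b + b', x⟫_ℂ • (a + a') := by
  rw [h.hT]; abel

theorem hN' (h : Setup N T a a' b b' M) (x : H) : (N†) x = (T†) x - ⟪a + a', x⟫_ℂ • (b + b') := by
  rw [h.hS]; abel

theorem symm (h : Setup N T a a' b b' M) : Setup (N†) (T†) b b' a a' M where
  normal := ⟨by
    have := h.normal.star_comm_self.symm
    simpa [ContinuousLinearMap.star_eq_adjoint] using this⟩
  hT := h.hS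
  closed := h.closed
  inv := h.inv'
  inv' := by simpa using h.inv
  rank := h.rank
  trans := by
    intro L hL hLM hinv
    have h1 : ∀ y ∈ Lᗮ, T y ∈ Lᗮ := orth_inv hinv
    rcases h.trans (M ⊓ Lᗮ) (h.closed.inter L.isClosed_orthogonal) inf_le_left
      (fun x hx => ⟨h.inv x hx.1, h1 x hx.2⟩) with h2 | h2
    · right
      refine le_antisymm hLM fun x hx => ?_
      obtain ⟨y, hy, z, hz, rfl⟩ := exists_decomp hL x
      have : z ∈ M ⊓ Lᗮ := ⟨(M.add_mem_iff_right (hLM hy)).mp hx, hz⟩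
      rw [h2, Submodule.mem_bot] at this
      simpa [this] using hy
    · left
      rw [eq_bot_iff, ← L.inf_orthogonal_eq_bot]
      exact le_inf le_rfl (hLM.trans (h2 ▸ inf_le_right))
  ha := h.hb
  hb := h.ha
  ha' := h.hb'
  hb' := h.ha'

theorem no_eig (h : Setup N T a a' b b' M) {x : H} (hx : x ∈ M) {μ : ℂ} (he : T x = μ • x) :
    x = 0 := by
  rcases h.trans (Submodule.span ℂ {x}) (Submodule.closed_of_finiteDimensional _)
    ((Submodule.span_singleton_le_iff_mem x M).mpr hx) (by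
      intro y hy
      obtain ⟨c, rfl⟩ := Submodule.mem_span_singleton.mp hy
      rw [map_smul, he, smul_smul]
      exact Submodule.smul_mem _ _ (Submodule.mem_span_singleton_self x)) with h1 | h1
  · simpa using h1
  · have h2 : Module.rank ℂ (Submodule.span ℂ {x}) ≤ 1 := by
      simpa using rank_span_le (R := ℂ) ({x} : Set H)
    rw [h1] at h2
    exact absurd h.rank (not_lt.mpr h2)

theorem no_eig' (h : Setup N T a a' b b' M) {x : H} (hx : x ∈ M) {μ : ℂ} (he : (T†) x = μ • x) :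
    x = 0 := h.symm.no_eig hx he

theorem le_of_mem (h : Setup N T a a' b b' M) {L : Submodule ℂ H} (hL : IsClosed (L : Set H))
    (hinv : ∀ x ∈ L, T x ∈ L) {x : H} (hx : x ∈ M) (hxL : x ∈ L) (hx0 : x ≠ 0) : M ≤ L := by
  rcases h.trans (M ⊓ L) (h.closed.inter hL) inf_le_left
    (fun y hy => ⟨h.inv y hy.1, hinv y hy.2⟩) with h1 | h1
  · have : x ∈ M ⊓ L := ⟨hx, hxL⟩
    rw [h1] at this
    exact absurd (by simpa using this) hx0
  · exact h1 ▸ inf_le_right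

/-- The off-diagonal block of the normality relation. -/
theorem offdiag (h : Setup N T a a' b b' M) {y : H} (hy : y ∈ Mᗮ) :
    ⟪b', y⟫_ℂ • ((T†) a - ⟪a + a', a + a'⟫_ℂ • b) + ⟪a', T y⟫_ℂ • b =
      ⟪a', y⟫_ℂ • (T b - ⟪b + b', b + b'⟫_ℂ • a) + ⟪b', (T†) y⟫_ℂ • a := by
  have hTy := orth_inv h.inv' y hy
  have hSy := orth_inv' h.inv y hy
  have e := normal_apply h.normal y
  rw [h.hN', h.hN, h.hN, h.hN'] at e
  have e1 : ⟪b + b', y⟫_ℂ = ⟪b', y⟫_ℂ := by rw [inner_add_left, hy b h.hb, zero_add]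
  have e2 : ⟪a + a', y⟫_ℂ = ⟪a', y⟫_ℂ := by rw [inner_add_left, hy a h.ha, zero_add]
  have e3 : ⟪a + a', T y⟫_ℂ = ⟪a', T y⟫_ℂ := by rw [inner_add_left, hTy a h.ha, zero_add]
  have e4 : ⟪b + b', (T†) y⟫_ℂ = ⟪b', (T†) y⟫_ℂ := by rw [inner_add_left, hSy b h.hb, zero_add]
  simp only [map_sub, map_smul, map_add, inner_sub_right, inner_smul_right, e1, e2, e3, e4] at e
  refine comp_eq (M := M) ?_ ?_
    (x' := -(T†) (T y) + ⟪b', y⟫_ℂ • (T†) a' +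
      (⟪a', T y⟫_ℂ - ⟪b', y⟫_ℂ * ⟪a + a', a + a'⟫_ℂ) • b')
    (y' := -T ((T†) y) + ⟪a', y⟫_ℂ • T b' +
      (⟪b', (T†) y⟫_ℂ - ⟪a', y⟫_ℂ * ⟪b + b', b + b'⟫_ℂ) • a') ?_ ?_ ?_
  · exact M.add_mem (M.smul_mem _ (M.sub_mem (h.inv' _ h.ha) (M.smul_mem _ h.hb)))
      (M.smul_mem _ h.hb)
  · exact M.add_mem (M.smul_mem _ (M.sub_mem (h.inv _ h.hb) (M.smul_mem _ h.ha)))
      (M.smul_mem _ h.ha)
  · exact Mᗮ.add_mem (Mᗮ.add_mem (Mᗮ.neg_mem (orth_inv' h.inv _ hTy))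
      (Mᗮ.smul_mem _ (orth_inv' h.inv _ h.ha'))) (Mᗮ.smul_mem _ h.hb')
  · exact Mᗮ.add_mem (Mᗮ.add_mem (Mᗮ.neg_mem (orth_inv h.inv' _ hSy))
      (Mᗮ.smul_mem _ (orth_inv h.inv' _ h.hb'))) (Mᗮ.smul_mem _ h.ha')
  · linear_combination (norm := module) -e

/-- The diagonal block of the normality relation. -/
theorem diag (h : Setup N T a a' b b' M) {x : H} (hx : x ∈ M) :
    (T†) (T x) - T ((T†) x) = ⟪b, x⟫_ℂ • (T†) a + ⟪a, T x⟫_ℂ • b
      - (⟪b, x⟫_ℂ * ⟪a + a', a + a'⟫_ℂ) • b - ⟪a, x⟫_ℂ • T b - ⟪b, (T†) x⟫_ℂ • a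
      + (⟪a, x⟫_ℂ * ⟪b + b', b + b'⟫_ℂ) • a := by
  have hTx := h.inv x hx
  have hSx := h.inv' x hx
  have o : ∀ {y z : H}, y ∈ Mᗮ → z ∈ M → ⟪y, z⟫_ℂ = 0 := fun hy hz =>
    Submodule.inner_left_of_mem_orthogonal hz hy
  have e := normal_apply h.normal x
  rw [h.hN', h.hN, h.hN, h.hN'] at e
  have e1 : ⟪b + b', x⟫_ℂ = ⟪b, x⟫_ℂ := by rw [inner_add_left, o h.hb' hx, add_zero]
  have e2 : ⟪a + a', x⟫_ℂ = ⟪a, x⟫_ℂ := by rw [inner_add_left, o h.ha' hx, add_zero]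
  have e3 : ⟪a + a', T x⟫_ℂ = ⟪a, T x⟫_ℂ := by rw [inner_add_left, o h.ha' hTx, add_zero]
  have e4 : ⟪b + b', (T†) x⟫_ℂ = ⟪b, (T†) x⟫_ℂ := by rw [inner_add_left, o h.hb' hSx, add_zero]
  simp only [map_sub, map_smul, map_add, inner_sub_right, inner_smul_right, e1, e2, e3, e4] at e
  refine comp_eq (M := M) ?_ ?_
    (x' := -⟪b, x⟫_ℂ • (T†) a' - (⟪a, T x⟫_ℂ - ⟪b, x⟫_ℂ * ⟪a + a', a + a'⟫_ℂ) • b')
    (y' := -⟪a, x⟫_ℂ • T b' - (⟪b, (T†) x⟫_ℂ - ⟪a, x⟫_ℂ * ⟪b + b', b + b'⟫_ℂ) • a') ?_ ?_ ?_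
  · exact M.sub_mem (h.inv' _ hTx) (h.inv _ hSx)
  · exact M.add_mem (M.sub_mem (M.sub_mem (M.sub_mem (M.add_mem (M.smul_mem _ (h.inv' _ h.ha))
      (M.smul_mem _ h.hb)) (M.smul_mem _ h.hb)) (M.smul_mem _ (h.inv _ h.hb)))
      (M.smul_mem _ h.ha)) (M.smul_mem _ h.ha)
  · exact Mᗮ.sub_mem (Mᗮ.smul_mem _ (orth_inv' h.inv _ h.ha')) (Mᗮ.smul_mem _ h.hb')
  · exact Mᗮ.sub_mem (Mᗮ.smul_mem _ (orth_inv h.inv' _ h.hb')) (Mᗮ.smul_mem _ h.ha')
  · linear_combination (norm := module) e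

end Setup

end Pool.Agent.P.MP_49c4d9_an.R1
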