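import Pool.Agent.P.MP_49c4d9_an.R1.Setup
import Pool.Agent.P.MP_49c4d9_an.R1.HR

/-! Trace identities when the spectrum has area zero, and the algebraic curves carrying it. -/

open scoped InnerProductSpace InnerProduct
open ContinuousLinearMap (adjoint)
open MeasureTheory Polynomial

namespace Pool.Agent.P.MP_49c4d9_an.R1

variable {H : Type*} [NormedAddCommGroup H] [InnerProductSpace ℂ H] [CompleteSpace H]

/-- `M` generates the space under `N` and its adjoint. -/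
def Gen (N : H →L[ℂ] H) (M : Submodule ℂ H) : Prop :=
  ∀ L : Submodule ℂ H, IsClosed (L : Set H) → (∀ x ∈ L, N x ∈ L) → (∀ x ∈ L, (N†) x ∈ L) →
    M ≤ L → L = ⊤

theorem Gen.symm {N : H →L[ℂ] H} {M : Submodule ℂ H} (h : Gen N M) : Gen (N†) M :=
  fun L h1 h2 h3 h4 => h L h1 (by simpa using h3) h2 h4

/-- The functional calculus. -/
noncomputable abbrev Φ {N : H →L[ℂ] H} (hN : IsStarNormal N) :
    C(spectrum ℂ N, ℂ) →⋆ₐ[ℂ] (H →L[ℂ] H) := cfcHom hN

/-- The coordinate function on the spectrum. -/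
noncomputable abbrev zz (N : H →L[ℂ] H) : C(spectrum ℂ N, ℂ) :=
  (ContinuousMap.id ℂ).restrict (spectrum ℂ N)

theorem Φ_zz {N : H →L[ℂ] H} (hN : IsStarNormal N) : Φ hN (zz N) = N := cfcHom_id hN

theorem Φ_star_zz {N : H →L[ℂ] H} (hN : IsStarNormal N) : Φ hN (star (zz N)) = (N†) := by
  rw [map_star, Φ_zz, ContinuousLinearMap.star_eq_adjoint]

theorem det_two {R V : Type*} [CommRing R] [AddCommGroup V] [Module R V] (X Y d e : R) (p q : V)
    (h1 : X • p = d • q) (h2 : Y • q = e • p) : (X * Y - d * e) • p = 0 ∧ (X * Y - d * e) • q = 0 :=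
  ⟨by linear_combination (norm := module) Y • h1 + d • h2,
    by linear_combination (norm := module) X • h2 + e • h1⟩

/-- The determinant of the quartic case. -/
def detFour {R : Type*} [CommRing R] (X Y X' Y' g₁ g₂ g₃ g₄ e₁ e₂ e₃ e₄ : R) : R :=
  (X * Y * Y' - e₁ * g₁ * Y - e₂ * g₃ * X) * (X * Y * X' - e₃ * g₂ * Y - e₄ * g₄ * X)
    - (e₁ * g₂ * Y + e₂ * g₄ * X) * (e₃ * g₁ * Y + e₄ * g₃ * X)

theorem det_four {R V : Type*} [CommRing R] [AddCommGroup V] [Module R V]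
    (X Y X' Y' g₁ g₂ g₃ g₄ e₁ e₂ e₃ e₄ : R) (a a' b b' : V)
    (h1 : X • b = g₁ • a + g₂ • a') (h2 : Y • b' = g₃ • a + g₄ • a')
    (h3 : Y' • a = e₁ • b + e₂ • b') (h4 : X' • a' = e₃ • b + e₄ • b') :
    detFour X Y X' Y' g₁ g₂ g₃ g₄ e₁ e₂ e₃ e₄ • a = 0 ∧
      detFour X Y X' Y' g₁ g₂ g₃ g₄ e₁ e₂ e₃ e₄ • a' = 0 := by
  have k1 : (X * Y * Y' - e₁ * g₁ * Y - e₂ * g₃ * X) • a = (e₁ * g₂ * Y + e₂ * g₄ * X) • a' := by
    linear_combination (norm := module) (X * Y) • h3 + (e₁ * Y) • h1 + (e₂ * X) • h2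
  have k2 : (X * Y * X' - e₃ * g₂ * Y - e₄ * g₄ * X) • a' = (e₃ * g₁ * Y + e₄ * g₃ * X) • a := by
    linear_combination (norm := module) (X * Y) • h4 + (e₃ * Y) • h1 + (e₄ * X) • h2
  exact det_two _ _ _ _ a a' k1 k2

theorem quad_ne_zero {s t s' t' d : ℂ} (hs : s ≠ 0) (ht : t ≠ 0) :
    ((C s * X + C s') * (C t * X + C t') - C d : ℂ[X]) ≠ 0 := by
  intro h0
  have h1 : ((C s * X + C s') * (C t * X + C t') - C d : ℂ[X]).natDegree = 2 := by
    compute_degree!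
  rw [h0] at h1
  simp at h1

theorem detFour_ne_zero (c₁ c₂ c₃ c₄ g₁ g₂ g₃ g₄ e₁ e₂ e₃ e₄ : ℂ) :
    detFour (X + C c₁ : ℂ[X]) (X + C c₂) (X + C c₃) (X + C c₄) (C g₁) (C g₂) (C g₃) (C g₄)
      (C e₁) (C e₂) (C e₃) (C e₄) ≠ 0 := by
  apply Monic.ne_zero
  unfold detFour
  monicity!

namespace Setup

variable {N T : H →L[ℂ] H} {a a' b b' : H} {M : Submodule ℂ H}

theorem resolvent_id (h : Setup N T a a' b b' M) (l : ℂ) (R : H →L[ℂ] H)
    (h1 : ∀ x, l • R x - N (R x) = x) (h2 : ∀ x, R (l • x - N x) = x) :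
    ⟪b + b', R a⟫_ℂ = ⟪b, R (a + a')⟫_ℂ := by
  have o : ∀ {y z : H}, y ∈ Mᗮ → z ∈ M → ⟪y, z⟫_ℂ = 0 := fun hy hz =>
    Submodule.inner_left_of_mem_orthogonal hz hy
  obtain ⟨p, hp, p', hp', e⟩ := exists_decomp h.closed (R (a + a'))
  obtain ⟨q, hq, q', hq', e'⟩ := exists_decomp h.closed ((R†) (b + b'))
  set F : ℂ := 1 - ⟪b + b', R (a + a')⟫_ℂ with hF
  have k1 : l • p - T p = F • a := by
    have k := h1 (a + a')
    rw [h.hN] at k
    refine comp_eq (M := M) (M.sub_mem (M.smul_mem _ hp) (h.inv _ hp)) (M.smul_mem _ h.ha)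
      (x' := l • p' - T p') (y' := F • a')
      (Mᗮ.sub_mem (Mᗮ.smul_mem _ hp') (orth_inv h.inv' _ hp')) (Mᗮ.smul_mem _ h.ha') ?_
    have k' : T (R (a + a')) = T p + T p' := by rw [e, map_add]
    rw [k'] at k
    linear_combination (norm := module) k - l • e
  have k2 : (starRingEnd ℂ) l • q - (T†) q = (starRingEnd ℂ) F • b := by
    have k : (starRingEnd ℂ) l • (R†) (b + b') - (N†) ((R†) (b + b')) = b + b' := by
      refine ext_inner_right ℂ fun y => ?_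
      rw [inner_sub_left, inner_smul_left, ContinuousLinearMap.adjoint_inner_left,
        ContinuousLinearMap.adjoint_inner_left, ContinuousLinearMap.adjoint_inner_left,
        Complex.conj_conj, ← inner_smul_right, ← inner_sub_right, ← map_smul, ← map_sub, h2]
    rw [h.hN'] at k
    have k0 : ⟪a + a', (R†) (b + b')⟫_ℂ = 1 - (starRingEnd ℂ) F := by
      rw [ContinuousLinearMap.adjoint_inner_right, hF, map_sub, inner_conj_symm]
      simp
    refine comp_eq (M := M) (M.sub_mem (M.smul_mem _ hq) (h.inv' _ hq)) (M.smul_mem _ h.hb)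
      (x' := (starRingEnd ℂ) l • q' - (T†) q') (y' := (starRingEnd ℂ) F • b')
      (Mᗮ.sub_mem (Mᗮ.smul_mem _ hq') (orth_inv' h.inv _ hq')) (Mᗮ.smul_mem _ h.hb') ?_
    have k' : (T†) ((R†) (b + b')) = (T†) q + (T†) q' := by rw [e', map_add]
    rw [k', k0] at k
    linear_combination (norm := module) k - (starRingEnd ℂ) l • e'
  have e1 : ⟪b + b', R a⟫_ℂ = ⟪q, a⟫_ℂ := by
    rw [← ContinuousLinearMap.adjoint_inner_left, e', inner_add_left, o hq' h.ha, add_zero]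
  have e2 : ⟪b, R (a + a')⟫_ℂ = ⟪b, p⟫_ℂ := by
    rw [e, inner_add_right, hp' b h.hb, add_zero]
  rw [e1, e2]
  rcases eq_or_ne F 0 with h0 | h0
  · have hp0 : p = 0 := h.no_eig hp (μ := l) (by
      rw [h0, zero_smul, sub_eq_zero] at k1; exact k1.symm)
    have hq0 : q = 0 := h.no_eig' hq (μ := (starRingEnd ℂ) l) (by
      rw [h0, map_zero, zero_smul, sub_eq_zero] at k2; exact k2.symm)
    simp [hp0, hq0]
  · apply mul_left_cancel₀ h0
    have k3 := congrArg (fun y => ⟪q, y⟫_ℂ) k1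
    have k4 := congrArg (fun y => ⟪y, p⟫_ℂ) k2
    simp only [inner_sub_right, inner_smul_right, inner_sub_left, inner_smul_left,
      ContinuousLinearMap.adjoint_inner_left, Complex.conj_conj] at k3 k4
    rw [← k3, ← k4]

theorem trace (h : Setup N T a a' b b' M) (h0 : volume (spectrum ℂ N) = 0) (n : ℕ) :
    ⟪b + b', ((N†) ^ n) a⟫_ℂ = ⟪b, ((N†) ^ n) (a + a')⟫_ℂ := by
  let L : C(spectrum ℂ N, ℂ) →L[ℂ] ℂ :=
    (innerSL ℂ (b + b')) ∘L (ContinuousLinearMap.apply ℂ H a) ∘L cfcL h.normal -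
      (innerSL ℂ b) ∘L (ContinuousLinearMap.apply ℂ H (a + a')) ∘L cfcL h.normal
  have hL : ∀ f, L f = ⟪b + b', Φ h.normal f a⟫_ℂ - ⟪b, Φ h.normal f (a + a')⟫_ℂ := fun f => rfl
  have := hr_conj_pow (spectrum ℂ N) h0 L (by
    intro l _ f hf
    have e : f * (l • 1 - zz N) = 1 := by
      ext z
      simpa using hf z
    have e1 := congrArg (Φ h.normal) e
    have e2 := congrArg (Φ h.normal) ((mul_comm _ _).trans e)
    rw [map_mul, map_sub, map_smul, map_one, Φ_zz] at e1 e2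
    rw [hL, sub_eq_zero]
    exact h.resolvent_id l _ (fun x => congrArg (fun A : H →L[ℂ] H => A x) e2)
      (fun x => congrArg (fun A : H →L[ℂ] H => A x) e1)) n (star (zz N) ^ n) (by simp)
  rwa [hL, map_pow, Φ_star_zz, sub_eq_zero] at this

theorem trace_one (h : Setup N T a a' b b' M) (h0 : volume (spectrum ℂ N) = 0) :
    ⟪a, a⟫_ℂ * ⟪b', b'⟫_ℂ = ⟪a', a'⟫_ℂ * ⟪b, b⟫_ℂ := by
  have o : ∀ {y z : H}, y ∈ Mᗮ → z ∈ M → ⟪y, z⟫_ℂ = 0 := fun hy hz =>
    Submodule.inner_left_of_mem_orthogonal hz hy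
  have := h.trace h0 1
  rw [pow_one, h.hN', h.hN'] at this
  simp only [map_add, inner_sub_right, inner_smul_right, inner_add_left, inner_add_right,
    o h.ha' h.ha, o h.hb' h.hb, h.ha' a h.ha, h.hb' b h.hb, o h.hb' (h.inv' _ h.ha),
    orth_inv' h.inv _ h.ha' b h.hb] at this
  linear_combination -this

theorem null_of_kill (h : Setup N T a a' b b' M) (hg : Gen N M) (ha : a ≠ 0)
    (Q : C(spectrum ℂ N, ℂ)) (h1 : Φ h.normal Q a = 0) (h2 : Φ h.normal Q a' = 0)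
    (hQ : ∀ y : ℝ, ∃ p : ℂ[X], p ≠ 0 ∧ ∀ (x : ℝ) (hx : x + y * Complex.I ∈ spectrum ℂ N),
      p.eval (x : ℂ) = Q ⟨_, hx⟩) : volume (spectrum ℂ N) = 0 := by
  have hc : ∀ f x, Φ h.normal Q x = 0 → Φ h.normal Q (Φ h.normal f x) = 0 := by
    intro f x hx
    have : Φ h.normal Q * Φ h.normal f = Φ h.normal f * Φ h.normal Q := by
      rw [← map_mul, ← map_mul, mul_comm]
    have := congrArg (fun A : H →L[ℂ] H => A x) this
    simpa [hx] using this
  have hN : ∀ x ∈ (Φ h.normal Q).ker, N x ∈ (Φ h.normal Q).ker := fun x hx => by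
    have := hc (zz N) x hx
    rwa [Φ_zz] at this
  have hN' : ∀ x ∈ (Φ h.normal Q).ker, (N†) x ∈ (Φ h.normal Q).ker := fun x hx => by
    have := hc (star (zz N)) x hx
    rwa [Φ_star_zz] at this
  have htop := hg _ (ContinuousLinearMap.isClosed_ker _) hN hN'
    (h.le_of_mem (ContinuousLinearMap.isClosed_ker _) (fun x hx => by
      rw [h.hT]
      exact Submodule.add_mem _ (hN x hx) (Submodule.smul_mem _ _ (Submodule.add_mem _ h1 h2)))
      h.ha h1 ha)
  have hQ0 : Q = 0 := by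
    apply cfcHom_injective h.normal
    rw [map_zero]
    ext x
    have : x ∈ (Φ h.normal Q).ker := by rw [htop]; trivial
    exact this
  refine null_of_poly _ (spectrum.isClosed N).measurableSet fun y => ?_
  obtain ⟨p, hp, hx⟩ := hQ y
  exact ⟨p, hp, fun x hx' => by rw [hx x hx', hQ0]; rfl⟩

theorem null_two (h : Setup N T a a' b b' M) (hg : Gen N M) (ha : a ≠ 0) {q : H}
    (hq : a' = q ∨ a' = 0) {x₁ y₁ x₂ y₂ k₁ k₂ d₁ d₂ : ℂ} (h₁ : x₁ + y₁ ≠ 0) (h₂ : x₂ + y₂ ≠ 0)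
    (e₁ : x₁ • N a + y₁ • (N†) a = k₁ • a + d₁ • q)
    (e₂ : x₂ • N q + y₂ • (N†) q = k₂ • q + d₂ • a) : volume (spectrum ℂ N) = 0 := by
  let _ : Module C(spectrum ℂ N, ℂ) H := Module.compHom H (Φ h.normal).toRingHom
  have hs : ∀ (f : C(spectrum ℂ N, ℂ)) (x : H), f • x = Φ h.normal f x := fun _ _ => rfl
  let c : ℂ → C(spectrum ℂ N, ℂ) := algebraMap ℂ _
  have hc : ∀ t, Φ h.normal (c t) = t • 1 := fun t => by
    rw [AlgHomClass.commutes, Algebra.algebraMap_eq_smul_one]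
  have key := det_two (c x₁ * zz N + c y₁ * star (zz N) - c k₁)
    (c x₂ * zz N + c y₂ * star (zz N) - c k₂) (c d₁) (c d₂) a q
    (by
      simp only [hs, map_sub, map_add, map_mul, hc, Φ_zz, Φ_star_zz]
      simp only [smul_mul_assoc, one_mul, sub_apply, add_apply, smul_apply, one_apply_eq_self]
      linear_combination (norm := module) e₁)
    (by
      simp only [hs, map_sub, map_add, map_mul, hc, Φ_zz, Φ_star_zz]
      simp only [smul_mul_assoc, one_mul, sub_apply, add_apply, smul_apply, one_apply_eq_self]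
      linear_combination (norm := module) e₂)
  refine h.null_of_kill hg ha _ key.1 ?_ fun y => ?_
  · rcases hq with rfl | rfl
    · exact key.2
    · exact map_zero _
  · refine ⟨(C (x₁ + y₁) * X + C ((x₁ - y₁) * (y * Complex.I) - k₁)) *
      (C (x₂ + y₂) * X + C ((x₂ - y₂) * (y * Complex.I) - k₂)) - C (d₁ * d₂), ?_, ?_⟩
    · exact quad_ne_zero h₁ h₂
    · intro x hx
      simp [c]
      ring

theorem null_four (h : Setup N T a a' b b' M) (hg : Gen N M) (ha : a ≠ 0)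
    {k₁ k₂ k₃ k₄ g₁ g₂ g₃ g₄ e₁ e₂ e₃ e₄ : ℂ}
    (h1 : N b - k₁ • b = g₁ • a + g₂ • a') (h2 : N b' - k₂ • b' = g₃ • a + g₄ • a')
    (h3 : (N†) a - k₄ • a = e₁ • b + e₂ • b') (h4 : (N†) a' - k₃ • a' = e₃ • b + e₄ • b') :
    volume (spectrum ℂ N) = 0 := by
  let _ : Module C(spectrum ℂ N, ℂ) H := Module.compHom H (Φ h.normal).toRingHom
  have hs : ∀ (f : C(spectrum ℂ N, ℂ)) (x : H), f • x = Φ h.normal f x := fun _ _ => rfl
  let c : ℂ → C(spectrum ℂ N, ℂ) := algebraMap ℂ _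
  have hc : ∀ t, Φ h.normal (c t) = t • 1 := fun t => by
    rw [AlgHomClass.commutes, Algebra.algebraMap_eq_smul_one]
  have key := det_four (zz N - c k₁) (zz N - c k₂) (star (zz N) - c k₃) (star (zz N) - c k₄)
    (c g₁) (c g₂) (c g₃) (c g₄) (c e₁) (c e₂) (c e₃) (c e₄) a a' b b'
    (by simpa only [hs, map_sub, hc, Φ_zz, Φ_star_zz, sub_apply, smul_apply, one_apply_eq_self]
      using h1)
    (by simpa only [hs, map_sub, hc, Φ_zz, Φ_star_zz, sub_apply, smul_apply, one_apply_eq_self]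
      using h2)
    (by simpa only [hs, map_sub, hc, Φ_zz, Φ_star_zz, sub_apply, smul_apply, one_apply_eq_self]
      using h3)
    (by simpa only [hs, map_sub, hc, Φ_zz, Φ_star_zz, sub_apply, smul_apply, one_apply_eq_self]
      using h4)
  refine h.null_of_kill hg ha _ key.1 key.2 fun y => ?_
  refine ⟨_, detFour_ne_zero (y * Complex.I - k₁) (y * Complex.I - k₂) (-(y * Complex.I) - k₃)
    (-(y * Complex.I) - k₄) g₁ g₂ g₃ g₄ e₁ e₂ e₃ e₄, fun x hx => ?_⟩
  simp [c, detFour]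
  ring

end Setup

end Pool.Agent.P.MP_49c4d9_an.R1
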